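import Pool.Agent.Y166.KS.Blk0b
import Pool.Agent.Y89.KS.Defs2
import Pool.Agent.W544.PG.MainT
import Pool.Agent.W927.PG.Coord
import Pool.Agent.W216.PG.GRD

/-!
# The block of the Hodge operator: proof of `S_blk0`
-/

set_option linter.unusedSectionVars false
set_option linter.deprecated false
set_option linter.unusedSimpArgs false

open Matrix Finset

namespace Pool.Agent.Y166.KS

open Pool.Agent.Y89.KS
open Pool.Agent.W544.PG (Gr big0 big1 big2 x0 B0 I HS mC cL cc_back cc_fwd cc_mul cc_mul' cc_skew'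
  cc_star C_sq comm_coord)

noncomputable section

variable {n : ℕ} (V : HS n)

/-- the Lie algebra as a subspace -/
def g0S : Submodule ℂ (Matrix (Fin n) (Fin n) ℂ) where
  carrier := g0 V
  zero_mem' := fun L _ _ => L.zero_mem
  add_mem' := fun ha hb L h1 h2 => L.add_mem (ha L h1 h2) (hb L h1 h2)
  smul_mem' := fun c _ ha L h1 h2 => L.smul_mem c (ha L h1 h2)

variable {V}

theorem mem_g0S {z : Matrix (Fin n) (Fin n) ℂ} : z ∈ g0S V ↔ z ∈ g0 V := Iff.rfl

theorem g0_lie {a b : Matrix (Fin n) (Fin n) ℂ} (ha : a ∈ g0 V) (hb : b ∈ g0 V) :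
    a * b - b * a ∈ g0 V := fun L h1 h2 => h1 a (ha L h1 h2) b (hb L h1 h2)

theorem g0_gal (σ : ℂ ≃+* ℂ) : V.x.map σ ∈ g0 V := fun _ _ h2 => h2 σ

theorem g0_x : V.x ∈ g0 V := by
  have h := g0_gal (V := V) (RingEquiv.refl ℂ)
  have h2 : V.x.map (RingEquiv.refl ℂ) = V.x := by
    ext i j; simp
  rwa [h2] at h

theorem map_mC (σ : ℂ ≃+* ℂ) (A : Matrix (Fin n) (Fin n) ℚ) : (mC A).map σ = mC A := by
  ext i j; simp [mC]

theorem x_skew (σ : ℂ ≃+* ℂ) : (V.x.map σ)ᵀ * mC V.Q + mC V.Q * V.x.map σ = 0 := by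
  have h := congrArg (fun A : Matrix (Fin n) (Fin n) ℂ => A.map σ) V.skew
  have h1 : (V.xᵀ * mC V.Q + mC V.Q * V.x).map σ =
      (V.xᵀ * mC V.Q).map σ + (mC V.Q * V.x).map σ := by
    ext i j; simp only [Matrix.map_apply, Matrix.add_apply, map_add]
  rw [h1, Matrix.map_mul, Matrix.map_mul, map_mC] at h
  rw [← Matrix.transpose_map]
  rw [h]
  ext i j; simp

/-- skew matrices -/
def skewS (V : HS n) : Submodule ℂ (Matrix (Fin n) (Fin n) ℂ) where
  carrier := {z | zᵀ * mC V.Q + mC V.Q * z = 0}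
  zero_mem' := by simp
  add_mem' := by
    intro a b ha hb
    simp only [Set.mem_setOf_eq] at ha hb ⊢
    rw [transpose_add, add_mul, mul_add]
    calc _ = (aᵀ * mC V.Q + mC V.Q * a) + (bᵀ * mC V.Q + mC V.Q * b) := by abel
      _ = 0 := by rw [ha, hb, add_zero]
  smul_mem' := by
    intro c a ha
    simp only [Set.mem_setOf_eq] at ha ⊢
    rw [transpose_smul, smul_mul_assoc, mul_smul_comm, ← smul_add, ha, smul_zero]

theorem g0_skew {z : Matrix (Fin n) (Fin n) ℂ} (hz : z ∈ g0 V) : zᵀ * mC V.Q + mC V.Q * z = 0 := by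
  refine hz (skewS V) ?_ ?_
  · intro a ha b hb
    have ha1 : aᵀ * mC V.Q = -(mC V.Q * a) := eq_neg_of_add_eq_zero_left ha
    have hb1 : bᵀ * mC V.Q = -(mC V.Q * b) := eq_neg_of_add_eq_zero_left hb
    show (a * b - b * a)ᵀ * mC V.Q + mC V.Q * (a * b - b * a) = 0
    rw [transpose_sub, transpose_mul, transpose_mul, sub_mul, mul_assoc, mul_assoc, ha1, hb1,
      mul_neg, mul_neg, ← mul_assoc, ← mul_assoc, ha1, hb1, mul_sub]
    simp only [neg_mul, neg_neg, mul_assoc]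
    abel
  · intro σ
    exact x_skew σ

theorem g0_map (σ : ℂ ≃+* ℂ) {z : Matrix (Fin n) (Fin n) ℂ} (hz : z ∈ g0 V) : z.map σ ∈ g0 V := by
  intro L h1 h2
  let L' : Submodule ℂ (Matrix (Fin n) (Fin n) ℂ) :=
    { carrier := {z | z.map σ ∈ L}
      zero_mem' := by
        have : (0 : Matrix (Fin n) (Fin n) ℂ).map σ = 0 := by ext i j; simp
        show (0 : Matrix (Fin n) (Fin n) ℂ).map σ ∈ L
        rw [this]; exact L.zero_mem
      add_mem' := by
        intro a b ha hb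
        have : (a + b).map σ = a.map σ + b.map σ := by ext i j; simp
        show (a + b).map σ ∈ L
        rw [this]; exact L.add_mem ha hb
      smul_mem' := by
        intro c a ha
        have : (c • a).map σ = σ c • a.map σ := by ext i j; simp
        show (c • a).map σ ∈ L
        rw [this]; exact L.smul_mem _ ha }
  refine hz L' ?_ ?_
  · intro a ha b hb
    have h3 : (a * b - b * a).map σ = a.map σ * b.map σ - b.map σ * a.map σ := by
      rw [← Matrix.map_mul, ← Matrix.map_mul]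
      ext i j; simp only [Matrix.map_apply, Matrix.sub_apply, map_sub]
    show (a * b - b * a).map σ ∈ L
    rw [h3]
    exact h1 _ ha _ hb
  · intro τ
    show (V.x.map τ).map σ ∈ L
    have h3 : (V.x.map τ).map σ = V.x.map (τ.trans σ) := by ext i j; simp
    rw [h3]
    exact h2 _

theorem CzC {z x : Matrix (Fin n) (Fin n) ℂ} (hx : x * x * x = x) :
    ((2 : ℂ) • (x * x) - 1) * z * ((2 : ℂ) • (x * x) - 1) =
      z - (8 / 3 : ℂ) • (x * (x * z - z * x) - (x * z - z * x) * x) +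
      (2 / 3 : ℂ) • (x * (x * (x * (x * z - z * x) - (x * z - z * x) * x) -
        (x * (x * z - z * x) - (x * z - z * x) * x) * x) -
        (x * (x * (x * z - z * x) - (x * z - z * x) * x) -
        (x * (x * z - z * x) - (x * z - z * x) * x) * x) * x) := by
  have hx' : x * (x * x) = x := by rw [← mul_assoc, hx]
  have e1 : ∀ w, x * (x * (x * w)) = x * w := by
    intro w
    rw [← mul_assoc x x w, ← mul_assoc x (x * x) w, hx']
  simp only [mul_sub, sub_mul, mul_assoc, e1, hx', smul_sub, mul_one, one_mul, smul_mul_assoc,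
    mul_smul_comm, smul_smul]
  module

theorem g0_CC {z : Matrix (Fin n) (Fin n) ℂ} (hz : z ∈ g0 V) : V.C * z * V.C ∈ g0 V := by
  have h1 := g0_lie g0_x hz
  have h2 := g0_lie g0_x h1
  have h3 := g0_lie g0_x h2
  have h4 := g0_lie g0_x h3
  show ((2 : ℂ) • (V.x * V.x) - 1) * z * ((2 : ℂ) • (V.x * V.x) - 1) ∈ g0 V
  rw [CzC V.cube, ← mem_g0S]
  exact (g0S V).add_mem ((g0S V).sub_mem hz ((g0S V).smul_mem _ h2)) ((g0S V).smul_mem _ h4)

theorem g0_star {z : Matrix (Fin n) (Fin n) ℂ} (hz : z ∈ g0 V) :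
    -(V.C * z.map (starRingEnd ℂ) * V.C) ∈ g0 V := by
  have h1 : z.map (starRingEnd ℂ) ∈ g0 V := g0_map (starRingAut : RingAut ℂ) hz
  exact (g0S V).neg_mem (g0_CC h1)

/-- the dimension is at least two -/
theorem two_le (htr : (V.x * V.x).trace = 2) : 2 ≤ n := by
  have h1 : V.x * V.x * (V.x * V.x) = V.x * V.x := by rw [← mul_assoc, V.cube]
  obtain ⟨m, G, H, h3, h4⟩ := rank_fac h1
  obtain ⟨h5, h6⟩ := rank_of_fac h3 h4
  rw [htr] at h6
  have h7 : m = 2 := by exact_mod_cast h6.symm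
  have h8 := Matrix.rank_le_card_width (V.x * V.x)
  rw [h5, h7, Fintype.card_fin] at h8
  exact h8

theorem vmv_sand {m k : Type} [Fintype m] (g : Matrix k m ℂ) (g' : Matrix m k ℂ) (a c : m → ℂ) :
    vecMulVec (g *ᵥ a) (c ᵥ* g') = g * vecMulVec a c * g' := by
  ext i j
  simp only [vecMulVec_apply, Matrix.mul_apply, Matrix.mulVec, dotProduct, Matrix.vecMul]
  rw [Finset.sum_mul_sum, Finset.sum_comm]
  refine Finset.sum_congr rfl fun s _ => ?_
  rw [Finset.sum_mul]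
  refine Finset.sum_congr rfl fun r _ => ?_
  ring

theorem C0_sq {q : ℕ} : C0 q * C0 q = 1 := by
  have h : (1 : Matrix (I 1 q) (I 1 q) ℂ) = W216.PG.bl 1 0 0 0 1 0 0 0 1 := by
    ext x y
    rcases x with x | x | x <;> rcases y with y | y | y <;>
      simp [Matrix.one_apply]
  rw [C0_eq, W216.PG.bl_mul, h, W216.PG.bl_inj]
  refine ⟨?_, ?_, ?_, ?_, ?_, ?_, ?_, ?_, ?_⟩ <;> simp

theorem C0_T {q : ℕ} : (C0 q)ᵀ = C0 q := by
  rw [C0_eq, W216.PG.bl_t, W216.PG.bl_inj]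
  refine ⟨?_, ?_, ?_, ?_, ?_, ?_, ?_, ?_, ?_⟩ <;> simp

theorem blk0 : S_blk0 := by
  intro n V htr
  obtain ⟨q, hq⟩ := Nat.exists_eq_add_of_le (two_le htr)
  obtain ⟨g, k1, k2, k3, k4⟩ := W927.PG.coord n 1 q V (by rw [htr]; norm_num) (by omega)
  obtain ⟨g', hg'⟩ : ∃ g' : Matrix (I 1 q) (Fin n) ℂ, g' = gᴴ * V.H := ⟨_, rfl⟩
  have e1 : g' * g = 1 := by rw [hg']; exact k2
  have e2 : g * g' = 1 := by rw [hg']; exact k3
  have mem : ∀ y : Matrix (I 1 q) (I 1 q) ℂ, y ∈ (g0S V).comap (cL g g') ↔ g * y * g' ∈ g0 V :=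
    fun y => Iff.rfl
  have hx0 : x0 1 q ∈ (g0S V).comap (cL g g') := by
    rw [mem, ← k4, Matrix.mul_assoc, e2, Matrix.mul_one]
    exact g0_x
  have hskew : ∀ X ∈ (g0S V).comap (cL g g'), Xᵀ * B0 1 q + B0 1 q * X = 0 := by
    intro y hy
    rw [mem] at hy
    rw [← k1]
    exact cc_skew' e1 e2 _ y (g0_skew hy)
  have hstar' : ∀ X ∈ (g0S V).comap (cL g g'), Xᴴ ∈ (g0S V).comap (cL g g') := by
    intro y hy
    rw [mem] at hy ⊢
    have h1 := g0_star hy
    have h2 := cc_star V k3 k2 y (g * y * g') (by rw [hg']) (g0_skew hy)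
    rw [← hg'] at h2
    rw [h2]
    exact h1
  have hlie' : ∀ X ∈ (g0S V).comap (cL g g'), ∀ Y ∈ (g0S V).comap (cL g g'),
      X * Y - Y * X ∈ (g0S V).comap (cL g g') := by
    intro a ha b hb
    rw [mem] at ha hb ⊢
    have h1 := g0_lie ha hb
    rw [cc_mul e1, cc_mul e1] at h1
    rw [Matrix.mul_sub, Matrix.sub_mul]
    exact h1
  obtain ⟨G, hG⟩ := W216.PG.GRD.grd 1 q _ hskew hstar' hlie' hx0
  obtain ⟨E, d, hE⟩ := exists_gb G
  -- the form in coordinates
  have f1 : gᵀ * mC V.Q = B0 1 q * g' := by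
    rw [← k1, Matrix.mul_assoc (gᵀ * mC V.Q), e2, Matrix.mul_one]
  have f2 : mC V.Q = g'ᵀ * B0 1 q * g' := by
    have h1 : g'ᵀ * gᵀ = 1 := by rw [← Matrix.transpose_mul, e2, Matrix.transpose_one]
    rw [Matrix.mul_assoc, ← f1, ← Matrix.mul_assoc, h1, Matrix.one_mul]
  have f3 : (mC V.Q)⁻¹ = g * B0 1 q * gᵀ := by
    have h1 : gᵀ * g'ᵀ = 1 := by rw [← Matrix.transpose_mul, e1, Matrix.transpose_one]
    refine Matrix.inv_eq_left_inv ?_
    rw [f2]
    calc g * B0 1 q * gᵀ * (g'ᵀ * B0 1 q * g') = g * B0 1 q * (gᵀ * g'ᵀ) * B0 1 q * g' := by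
          simp only [Matrix.mul_assoc]
      _ = g * (B0 1 q * B0 1 q) * g' := by rw [h1, Matrix.mul_one, Matrix.mul_assoc g]
      _ = 1 := by rw [B0_sq, Matrix.mul_one, e2]
  have f4 : adV V (g * Pb E d * g') = g * Pa E d * g' := by
    have h1 : gᵀ * g'ᵀ = 1 := by rw [← Matrix.transpose_mul, e1, Matrix.transpose_one]
    unfold adV adj
    rw [f3, f2, ← Pa_eq, Matrix.transpose_mul, Matrix.transpose_mul]
    calc g * B0 1 q * gᵀ * (g'ᵀ * ((Pb E d)ᵀ * gᵀ)) * (g'ᵀ * B0 1 q * g')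
        = g * B0 1 q * (gᵀ * g'ᵀ) * (Pb E d)ᵀ * (gᵀ * g'ᵀ) * B0 1 q * g' := by
          simp only [Matrix.mul_assoc]
      _ = g * (B0 1 q * (Pb E d)ᵀ * B0 1 q) * g' := by
          rw [h1, Matrix.mul_one, Matrix.mul_one]; simp only [Matrix.mul_assoc]
  have f5 : ∀ a b : I 1 q → ℂ, wdg (mC V.Q) (g *ᵥ a) (g *ᵥ b) = g * wdg (B0 1 q) a b * g' := by
    intro a b
    have h1 : ∀ a b : I 1 q → ℂ, Matrix.vecMulVec (g *ᵥ a) (mC V.Q *ᵥ (g *ᵥ b)) =
        g * Matrix.vecMulVec a (B0 1 q *ᵥ b) * g' := by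
      intro a b
      have h2 : mC V.Q *ᵥ (g *ᵥ b) = (B0 1 q *ᵥ b) ᵥ* g' := by
        rw [← Matrix.mulVec_transpose, Matrix.mulVec_mulVec, Matrix.mulVec_mulVec]
        congr 1
        rw [f2]
        rw [Matrix.mul_assoc, e1, Matrix.mul_one]
      rw [h2, vmv_sand]
    unfold wdg
    rw [h1, h1, Matrix.mul_sub, Matrix.sub_mul]
  have f6 : ∀ y ∈ G.alg, g * y * g' ∈ g0 V := by
    intro y hy
    rw [hG] at hy
    exact hy
  have f7 : ∀ z ∈ g0 V, g' * z * g ∈ G.alg := by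
    intro z hz
    rw [hG, mem, cc_back e2]
    exact hz
  have hxx : V.x = g * x0 1 q * g' := by
    rw [← k4, Matrix.mul_assoc, e2, Matrix.mul_one]
  refine ⟨g * Pb E d * g', ?_, ?_, ?_, ?_⟩
  · rw [cc_mul e1, Pb_sq hE]
  · intro z hz
    have h1 := Pb_comm hE (f7 z hz)
    exact (comm_coord e2 (Pb E d) z h1.symm).symm
  · intro a b
    rw [f4]
    have h1 : ∀ (A : Matrix (I 1 q) (I 1 q) ℂ) (v : Fin n → ℂ),
        (g * A * g') *ᵥ v = g *ᵥ (A *ᵥ (g' *ᵥ v)) := by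
      intro A v
      rw [Matrix.mulVec_mulVec, Matrix.mulVec_mulVec, Matrix.mul_assoc]
    rw [h1, h1, f5]
    exact f6 _ (wedge_mem hE _ _)
  · rcases hE.type with ⟨h1, h2, h3⟩ | ⟨h1, h2⟩
    · left
      refine ⟨?_, ?_, ?_, ?_⟩
      · rw [f4, Pa_P1 hE h1 h2]
      · rw [hxx, cc_mul e1, x0_P1 h1]
      · -- reality
        have b1 : V.C * g = g * C0 q := by
          show ((2 : ℂ) • (V.x * V.x) - 1) * g = g * ((2 : ℂ) • (x0 1 q * x0 1 q) - 1)
          rw [Matrix.sub_mul, Matrix.mul_sub, Matrix.smul_mul, Matrix.mul_smul, Matrix.mul_assoc,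
            k4, ← Matrix.mul_assoc, k4, Matrix.mul_assoc, Matrix.one_mul, Matrix.mul_one]
        obtain ⟨gb, hgb⟩ : ∃ gb : Matrix (Fin n) (I 1 q) ℂ, gb = cj g := ⟨_, rfl⟩
        obtain ⟨gc, hgc⟩ : ∃ gc : Matrix (I 1 q) (Fin n) ℂ, gc = cj g' := ⟨_, rfl⟩
        have b0 : gbᵀ = gᴴ := by rw [hgb, T_cj]
        have b2 : (g' * gb)ᵀ * B0 1 q * C0 q = 1 := by
          have b3 : V.H = mC V.Q * V.C := rfl
          rw [b3, Matrix.mul_assoc gᴴ, Matrix.mul_assoc (mC V.Q), b1, f2] at k2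
          rw [← k2, Matrix.transpose_mul, b0]
          calc gᴴ * g'ᵀ * B0 1 q * C0 q = gᴴ * g'ᵀ * B0 1 q * 1 * C0 q := by rw [Matrix.mul_one]
            _ = gᴴ * g'ᵀ * B0 1 q * (g' * g) * C0 q := by rw [e1]
            _ = gᴴ * (g'ᵀ * B0 1 q * g' * (g * C0 q)) := by simp only [Matrix.mul_assoc]
        have b4 : (g' * gb)ᵀ = C0 q * B0 1 q := by
          calc (g' * gb)ᵀ = (g' * gb)ᵀ * B0 1 q * (C0 q * C0 q) * B0 1 q := by
                rw [C0_sq, Matrix.mul_one, Matrix.mul_assoc, B0_sq, Matrix.mul_one]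
            _ = (g' * gb)ᵀ * B0 1 q * C0 q * (C0 q * B0 1 q) := by simp only [Matrix.mul_assoc]
            _ = C0 q * B0 1 q := by rw [b2, Matrix.one_mul]
        have b5 : g' * gb = B0 1 q * C0 q := by
          have b6 := congrArg Matrix.transpose b4
          rwa [Matrix.transpose_transpose, Matrix.transpose_mul, B0_symm, C0_T] at b6
        have b7 : gb = g * (B0 1 q * C0 q) := by
          rw [← b5, ← Matrix.mul_assoc, e2, Matrix.one_mul]
        have b9 : gc * gb = 1 := by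
          rw [hgb, hgc, ← cj_mul, e1]
          ext i j
          simp only [cj, Matrix.map_apply, Matrix.one_apply]
          split_ifs <;> simp
        have b10 : (B0 1 q * C0 q) * (C0 q * B0 1 q) = 1 := by
          calc (B0 1 q * C0 q) * (C0 q * B0 1 q) = B0 1 q * (C0 q * C0 q) * B0 1 q := by
                simp only [Matrix.mul_assoc]
            _ = 1 := by rw [C0_sq, Matrix.mul_one, B0_sq]
        have b8 : gc = C0 q * B0 1 q * g' := by
          calc gc = gc * (g * g') := by rw [e2, Matrix.mul_one]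
            _ = gc * (g * ((B0 1 q * C0 q) * (C0 q * B0 1 q)) * g') := by
                rw [b10, Matrix.mul_one]
            _ = gc * (g * (B0 1 q * C0 q)) * (C0 q * B0 1 q * g') := by
                simp only [Matrix.mul_assoc]
            _ = C0 q * B0 1 q * g' := by rw [← b7, b9, Matrix.one_mul]
        show cj (g * Pb E d * g') = g * Pb E d * g'
        rw [cj_mul, cj_mul, ← hgb, ← hgc, b7, b8]
        calc g * (B0 1 q * C0 q) * cj (Pb E d) * (C0 q * B0 1 q * g') =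
            g * (B0 1 q * C0 q * cj (Pb E d) * C0 q * B0 1 q) * g' := by
              simp only [Matrix.mul_assoc]
          _ = g * Pb E d * g' := by rw [conj_P h1 h2]
      · have h4 := rank_Pb hE h1 h3
        have h5 : g' * (g * Pb E d * g') * g = Pb E d := cc_fwd e1 _
        rw [← h5] at h4
        exact h4.trans ((Matrix.rank_mul_le_left _ _).trans (Matrix.rank_mul_le_right _ _))
    · right
      refine ⟨?_, ?_, ?_⟩
      · rw [f4, cc_mul e1, (PaPb0 hE h1 h2).1, Matrix.mul_zero, Matrix.zero_mul]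
      · rw [f4, cc_mul e1, (PaPb0 hE h1 h2).2, Matrix.mul_zero, Matrix.zero_mul]
      · rw [f4, hxx, cc_mul e1, cc_mul e1, ← Matrix.add_mul, ← Matrix.mul_add, x0_P0 h1]

end

end Pool.Agent.Y166.KS
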