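import Pool.Agent.Y166.KS.Fft
import Pool.Agent.W544.PG.Defs

/-!
# The block of a graded Lie algebra with one-dimensional outer part
-/

set_option linter.unusedSectionVars false
set_option linter.deprecated false
set_option linter.unusedSimpArgs false

open Matrix Finset

namespace Pool.Agent.Y166.KS

open Pool.Agent.Y89.KS
open Pool.Agent.W544.PG (Gr big0 big1 x0 B0 I)

noncomputable section

/-- orthogonal projection to a space of rows -/
theorem exists_proj {q : ℕ} (W : Submodule ℂ (Matrix (Fin 1) (Fin q) ℂ)) :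
    ∃ E : Matrix (Fin q) (Fin q) ℂ, E * E = E ∧ Eᴴ = E ∧ (∀ F ∈ W, F * E = F) ∧
      ∀ R : Matrix (Fin 1) (Fin q) ℂ, R * E ∈ W := by
  classical
  -- rows as vectors
  let r : Matrix (Fin 1) (Fin q) ℂ ≃ₗ[ℂ] EuclideanSpace ℂ (Fin q) :=
    { toFun := fun F => WithLp.toLp 2 (F 0)
      invFun := fun v => Matrix.of (fun _ => WithLp.ofLp v)
      map_add' := fun _ _ => rfl
      map_smul' := fun _ _ => rfl
      left_inv := fun F => by
        ext i j
        have : i = 0 := Subsingleton.elim _ _
        subst this; rfl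
      right_inv := fun v => rfl }
  let U : Submodule ℂ (EuclideanSpace ℂ (Fin q)) := W.map r.toLinearMap
  let pj : EuclideanSpace ℂ (Fin q) →ₗ[ℂ] EuclideanSpace ℂ (Fin q) := U.starProjection.toLinearMap
  -- the matrix acting on rows from the right
  let E : Matrix (Fin q) (Fin q) ℂ := Matrix.of (fun i j => (pj (EuclideanSpace.single i 1)) j)
  have hE : ∀ R : Matrix (Fin 1) (Fin q) ℂ, r (R * E) = pj (r R) := by
    intro R
    have h1 : r R = ∑ i, R 0 i • EuclideanSpace.single i (1 : ℂ) := by
      ext k
      simp [r, Finset.sum_apply, PiLp.smul_apply, EuclideanSpace.single_apply, Pi.single_apply]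
    rw [h1, map_sum]
    ext k
    simp only [map_smul]
    simp [r, E, Matrix.mul_apply]
  have hU : ∀ R, R ∈ W ↔ r R ∈ U := by
    intro R
    constructor
    · intro h; exact ⟨R, h, rfl⟩
    · rintro ⟨R', h, h'⟩
      rwa [← r.injective h']
  have h3 : ∀ F ∈ W, F * E = F := by
    intro F hF
    apply r.injective
    rw [hE]
    exact Submodule.starProjection_eq_self_iff.2 ((hU F).1 hF)
  have h4 : ∀ R : Matrix (Fin 1) (Fin q) ℂ, R * E ∈ W := by
    intro R
    rw [hU, hE]
    exact Submodule.starProjection_apply_mem U (r R)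
  have hrow : ∀ A B : Matrix (Fin q) (Fin q) ℂ, (∀ R : Matrix (Fin 1) (Fin q) ℂ, R * A = R * B) →
      A = B := by
    intro A B h
    ext i j
    have h1 := congrFun (congrFun (h (Matrix.of fun _ => Pi.single i 1)) 0) j
    simpa [Matrix.mul_apply, Pi.single_apply] using h1
  refine ⟨E, ?_, ?_, h3, h4⟩
  · apply hrow
    intro R
    rw [← Matrix.mul_assoc, h3 _ (h4 R)]
  · ext i j
    have h5 := Submodule.starProjection_isSymmetric (K := U) (EuclideanSpace.single j 1)
      (EuclideanSpace.single i 1)
    rw [EuclideanSpace.inner_single_right, EuclideanSpace.inner_single_left] at h5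
    simp only [one_mul, map_one] at h5
    rw [Matrix.conjTranspose_apply]
    exact h5

end

end Pool.Agent.Y166.KS
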