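import Pool.Agent.Y166.KS.Blk0a
import Pool.Agent.W216.PG.Blk

/-!
# The block of a graded Lie algebra with one-dimensional outer part, II
-/

set_option linter.unusedSectionVars false
set_option linter.deprecated false
set_option linter.unusedSimpArgs false

open Matrix Finset

namespace Pool.Agent.Y166.KS

open Pool.Agent.Y89.KS
open Pool.Agent.W544.PG (Gr big0 big1 big2 x0 B0 I)
open Pool.Agent.W216.PG

noncomputable section

variable {q : ℕ}

/-- complex conjugation of matrices -/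
abbrev cj {m n : Type} (A : Matrix m n ℂ) : Matrix m n ℂ := A.map (starRingEnd ℂ)

theorem cj_mul {l m n : Type} [Fintype m] (A : Matrix l m ℂ) (B : Matrix m n ℂ) :
    cj (A * B) = cj A * cj B := Matrix.map_mul

theorem cj_cj {m n : Type} (A : Matrix m n ℂ) : cj (cj A) = A := by
  ext i j; simp [cj]

theorem conjT_T {m n : Type} (A : Matrix m n ℂ) : Aᴴᵀ = cj A := by
  ext i j; simp [cj]

theorem T_cj {m n : Type} (A : Matrix m n ℂ) : (cj A)ᵀ = Aᴴ := by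
  ext i j; simp [cj]

theorem cj_H {m n : Type} (A : Matrix m n ℂ) : (cj A)ᴴ = Aᵀ := by
  ext i j; simp [cj]

theorem conjTranspose_transpose_eq {m n : Type} (A : Matrix m n ℂ) : (Aᵀ)ᴴ = (Aᴴ)ᵀ := rfl

theorem row_ext {A B : Matrix (Fin q) (Fin q) ℂ}
    (h : ∀ R : Matrix (Fin 1) (Fin q) ℂ, R * A = R * B) : A = B := by
  ext i j
  have h1 := congrFun (congrFun (h (Matrix.of fun _ => Pi.single i 1)) 0) j
  simpa [Matrix.mul_apply, Pi.single_apply] using h1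

/-- `1 × 1` matrices are scalars -/
theorem one_one {n : Type} (A : Matrix (Fin 1) (Fin 1) ℂ) (B : Matrix (Fin 1) n ℂ) :
    A * B = A 0 0 • B := by
  ext i j
  have : i = 0 := Subsingleton.elim _ _
  subst this
  simp [Matrix.mul_apply]

theorem h0_second (G : Gr 1 q) {F F' : Matrix (Fin 1) (Fin q) ℂ} (hF : F ∈ G.h1) (hF' : F' ∈ G.h1) :
    ((0, (F'ᴴ * F)ᵀ - F'ᴴ * F) : Matrix (Fin 1) (Fin 1) ℂ × Matrix (Fin q) (Fin q) ℂ) ∈ G.h0 := by
  have h1 := G.b1s F hF F' hF'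
  have h2 := G.h0.smul_mem ((F * F'ᴴ) 0 0) G.one
  have h3 := G.h0.sub_mem h1 h2
  convert h3 using 1
  ext i j
  · have hi : i = 0 := Subsingleton.elim _ _
    have hj : j = 0 := Subsingleton.elim _ _
    subst hi; subst hj
    simp
  · simp

theorem dichotomy (G : Gr 1 q) : (∀ F ∈ G.h1, ∀ F' ∈ G.h1, F * F'ᵀ = 0) ∨
    ((∀ F ∈ G.h1, cj F ∈ G.h1) ∧ ∃ F ∈ G.h1, F ≠ 0) := by
  by_cases h : ∀ F ∈ G.h1, ∀ F' ∈ G.h1, F * F'ᵀ = 0
  · exact Or.inl h
  · push Not at h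
    obtain ⟨F₁, h1, F₂, h2, h3⟩ := h
    refine Or.inr ⟨fun F' hF' => ?_, F₁, h1, ?_⟩
    · have h4 := h0_second G h2 hF'
      have h5 := G.b01 _ h4 F₁ h1
      simp only [Matrix.zero_mul, zero_sub] at h5
      have h6 : -(F₁ * ((F'ᴴ * F₂)ᵀ - F'ᴴ * F₂)) = - ((F₁ * F₂ᵀ) 0 0 • cj F') +
          (F₁ * F'ᴴ) 0 0 • F₂ := by
        rw [Matrix.transpose_mul, conjT_T, Matrix.mul_sub, ← Matrix.mul_assoc, ← Matrix.mul_assoc,
          one_one, one_one]
        abel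
      rw [h6] at h5
      have h7 : (F₁ * F₂ᵀ) 0 0 • cj F' ∈ G.h1 := by
        have h8 := G.h1.sub_mem (G.h1.smul_mem ((F₁ * F'ᴴ) 0 0) h2) h5
        convert h8 using 1
        abel
      have h9 : (F₁ * F₂ᵀ) 0 0 ≠ 0 := by
        intro h10
        apply h3
        ext i j
        have hi : i = 0 := Subsingleton.elim _ _
        have hj : j = 0 := Subsingleton.elim _ _
        subst hi; subst hj
        exact h10
      exact (Submodule.smul_mem_iff _ h9).1 h7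
    · rintro rfl
      apply h3
      rw [Matrix.zero_mul]

theorem h0_comm (G : Gr 1 q) {E : Matrix (Fin q) (Fin q) ℂ} (hE : Eᴴ = E)
    (h3 : ∀ F ∈ G.h1, F * E = F) (h4 : ∀ R : Matrix (Fin 1) (Fin q) ℂ, R * E ∈ G.h1)
    {X : Matrix (Fin 1) (Fin 1) ℂ × Matrix (Fin q) (Fin q) ℂ} (hX : X ∈ G.h0) :
    X.2 * E = E * X.2 := by
  have key : ∀ Y ∈ G.h0, E * Y.2 * E = E * Y.2 := by
    intro Y hY
    apply row_ext
    intro R
    have h5 := G.b01 Y hY (R * E) (h4 R)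
    rw [one_one] at h5
    have h6 : R * E * Y.2 ∈ G.h1 := by
      have h7 := G.h1.sub_mem (G.h1.smul_mem (Y.1 0 0) (h4 R)) h5
      convert h7 using 1
      abel
    have h8 := h3 _ h6
    simpa only [Matrix.mul_assoc] using h8
  have h5 := key X hX
  have h6 := congrArg Matrix.conjTranspose (key _ (G.star0 X hX))
  simp only [Matrix.conjTranspose_mul, Matrix.conjTranspose_conjTranspose, hE] at h6
  rw [← h6, ← Matrix.mul_assoc, h5]

/-- the structure found in a graded Lie algebra -/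
structure GB (G : Gr 1 q) (E : Matrix (Fin q) (Fin q) ℂ) (d : ℂ) : Prop where
  idem : E * E = E
  herm : Eᴴ = E
  fix : ∀ F ∈ G.h1, F * E = F
  mem : ∀ R : Matrix (Fin 1) (Fin q) ℂ, R * E ∈ G.h1
  comm : ∀ X ∈ G.h0, X.2 * E = E * X.2
  type : (d = 1 ∧ cj E = E ∧ E ≠ 0) ∨ (d = 0 ∧ E * Eᵀ = 0)

theorem exists_gb (G : Gr 1 q) : ∃ E d, GB G E d := by
  obtain ⟨E, h1, h2, h3, h4⟩ := exists_proj G.h1
  rcases dichotomy G with h | ⟨h, F, hF, hF0⟩
  · refine ⟨E, 0, h1, h2, h3, h4, fun X hX => h0_comm G h2 h3 h4 hX, Or.inr ⟨rfl, ?_⟩⟩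
    have h5 : ∀ R R' : Matrix (Fin 1) (Fin q) ℂ, R * (E * Eᵀ) * R'ᵀ = 0 := by
      intro R R'
      have h6 := h _ (h4 R) _ (h4 R')
      rw [Matrix.transpose_mul] at h6
      simpa only [Matrix.mul_assoc] using h6
    ext i j
    have h6 := congrFun (congrFun (h5 (Matrix.of fun _ => Pi.single i 1)
      (Matrix.of fun _ => Pi.single j 1)) 0) 0
    simpa [Matrix.mul_apply, Pi.single_apply, Finset.mul_sum] using h6
  · refine ⟨E, 1, h1, h2, h3, h4, fun X hX => h0_comm G h2 h3 h4 hX, Or.inl ⟨rfl, ?_, ?_⟩⟩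
    · have h5 : cj E * E = cj E := by
        apply row_ext
        intro R
        have h6 := h _ (h4 (cj R))
        rw [cj_mul, cj_cj] at h6
        have h7 := h3 _ h6
        rw [← Matrix.mul_assoc, h7]
      have h6 : E * cj E = cj E := by
        have h7 := congrArg Matrix.conjTranspose h5
        have h8 : (cj E)ᴴ = cj E := by rw [cj_H, ← conjT_T, h2]
        rw [Matrix.conjTranspose_mul, h2, h8] at h7
        exact h7
      have h7 := congrArg cj h5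
      rw [cj_mul, cj_cj, h6] at h7
      exact h7
    · rintro rfl
      apply hF0
      rw [← h3 F hF, Matrix.mul_zero]

/-- the projection to the block in coordinates -/
def Pb (E : Matrix (Fin q) (Fin q) ℂ) (d : ℂ) : Matrix (I 1 q) (I 1 q) ℂ :=
  bl 1 0 0 0 E 0 0 0 (d • 1)

/-- its adjoint -/
def Pa (E : Matrix (Fin q) (Fin q) ℂ) (d : ℂ) : Matrix (I 1 q) (I 1 q) ℂ :=
  bl (d • 1) 0 0 0 Eᵀ 0 0 0 1

theorem one_t {n : Type} [DecidableEq n] : (1 : Matrix n n ℂ)ᵀ = 1 := Matrix.transpose_one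

theorem Pa_eq (E : Matrix (Fin q) (Fin q) ℂ) (d : ℂ) :
    B0 1 q * (Pb E d)ᵀ * B0 1 q = Pa E d := by
  unfold Pb Pa
  rw [B0_eq, bl_t, bl_mul, bl_mul, bl_inj]
  refine ⟨?_, ?_, ?_, ?_, ?_, ?_, ?_, ?_, ?_⟩ <;> simp

theorem B0_sq : B0 1 q * B0 1 q = 1 := by
  have h : (1 : Matrix (I 1 q) (I 1 q) ℂ) = bl 1 0 0 0 1 0 0 0 1 := by
    ext x y
    rcases x with x | x | x <;> rcases y with y | y | y <;>
      simp [Matrix.one_apply]
  rw [B0_eq, bl_mul, h, bl_inj]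
  refine ⟨?_, ?_, ?_, ?_, ?_, ?_, ?_, ?_, ?_⟩ <;> simp

theorem B0_symm : (B0 1 q)ᵀ = B0 1 q := by
  rw [B0_eq, bl_t, bl_inj]
  refine ⟨?_, ?_, ?_, ?_, ?_, ?_, ?_, ?_, ?_⟩ <;> simp

variable {G : Gr 1 q} {E : Matrix (Fin q) (Fin q) ℂ} {d : ℂ}

theorem GB.dd (h : GB G E d) : d * d = d := by
  rcases h.type with h1 | h1
  · rw [h1.1]; ring
  · rw [h1.1]; ring

theorem GB.dc (h : GB G E d) : star d = d := by
  rcases h.type with h1 | h1
  · rw [h1.1]; simp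
  · rw [h1.1]; simp

theorem GB.tr (h : GB G E d) : Eᵀ = cj E := by rw [← conjT_T, h.herm]

theorem GB.fixT (h : GB G E d) {F : Matrix (Fin 1) (Fin q) ℂ} (hF : F ∈ G.h1) :
    F * Eᵀ = d • F := by
  rcases h.type with ⟨h1, h2, -⟩ | ⟨h1, h2⟩
  · rw [h.tr, h2, h.fix F hF, h1, one_smul]
  · rw [h1, zero_smul]
    calc F * Eᵀ = F * E * Eᵀ := by rw [h.fix F hF]
      _ = 0 := by rw [Matrix.mul_assoc, h2, Matrix.mul_zero]

theorem GB.dET (h : GB G E d) : d • Eᵀ = d • E := by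
  rcases h.type with ⟨h1, h2, -⟩ | ⟨h1, h2⟩
  · rw [h.tr, h2]
  · rw [h1, zero_smul, zero_smul]

theorem Pb_sq (h : GB G E d) : Pb E d * Pb E d = Pb E d := by
  unfold Pb
  rw [bl_mul, bl_inj]
  refine ⟨?_, ?_, ?_, ?_, ?_, ?_, ?_, ?_, ?_⟩ <;> simp [h.idem, h.dd, smul_smul]

theorem Pb_H (h : GB G E d) : (Pb E d)ᴴ = Pb E d := by
  unfold Pb
  rw [bl_ct, bl_inj]
  refine ⟨?_, ?_, ?_, ?_, ?_, ?_, ?_, ?_, ?_⟩ <;> simp [h.herm, h.dc, Matrix.conjTranspose_smul]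

theorem Pb_comm1 (h : GB G E d) {F : Matrix (Fin 1) (Fin q) ℂ} (hF : F ∈ G.h1) :
    big1 F * Pb E d = Pb E d * big1 F := by
  have h1 := congrArg Matrix.transpose (h.fixT hF)
  rw [Matrix.transpose_mul, Matrix.transpose_transpose, Matrix.transpose_smul] at h1
  unfold Pb
  rw [big1_eq, bl_mul, bl_mul, bl_inj]
  refine ⟨?_, ?_, ?_, ?_, ?_, ?_, ?_, ?_, ?_⟩ <;> simp [h.fix F hF, h1]

theorem Pb_comm (h : GB G E d) {y : Matrix (I 1 q) (I 1 q) ℂ} (hy : y ∈ G.alg) :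
    y * Pb E d = Pb E d * y := by
  refine Submodule.span_induction (p := fun y _ => y * Pb E d = Pb E d * y) ?_ (by simp) ?_ ?_ hy
  · rintro y (⟨X, hX, rfl⟩ | ⟨F, hF, rfl | rfl⟩ | ⟨Y, hY, hY2⟩)
    · unfold Pb
      rw [big0_eq, bl_mul, bl_mul, bl_inj]
      refine ⟨?_, ?_, ?_, ?_, ?_, ?_, ?_, ?_, ?_⟩ <;> simp [h.comm X hX]
    · exact Pb_comm1 h hF
    · have h1 := congrArg Matrix.conjTranspose (Pb_comm1 h hF)
      rw [Matrix.conjTranspose_mul, Matrix.conjTranspose_mul, Pb_H h] at h1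
      exact h1.symm
    · have h1 : Y = 0 := by
        have h2 := G.skew2 Y hY
        ext i j
        have hi : i = 0 := Subsingleton.elim _ _
        have hj : j = 0 := Subsingleton.elim _ _
        subst hi; subst hj
        have h3 := congrFun (congrFun h2 0) 0
        simp only [Matrix.transpose_apply, Matrix.neg_apply] at h3
        exact self_eq_neg.1 h3
      have h2 : (big2 (0 : Matrix (Fin 1) (Fin 1) ℂ) : Matrix (I 1 q) (I 1 q) ℂ) = 0 := by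
        rw [big2_eq, bl_zero]
      rw [h1, h2, Matrix.conjTranspose_zero, or_self] at hY2
      rw [hY2]; simp
  · intro x y _ _ hx hy
    rw [Matrix.add_mul, Matrix.mul_add, hx, hy]
  · intro c x _ hx
    rw [Matrix.smul_mul, Matrix.mul_smul, hx]

theorem vmv_tri (u : Fin 1 → ℂ) (v : Fin q → ℂ) (w : Fin 1 → ℂ) (u' : Fin 1 → ℂ)
    (v' : Fin q → ℂ) (w' : Fin 1 → ℂ) :
    Matrix.vecMulVec (tri u v w) (tri u' v' w') =
      bl (vecMulVec u u') (vecMulVec u v') (vecMulVec u w') (vecMulVec v u') (vecMulVec v v')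
        (vecMulVec v w') (vecMulVec w u') (vecMulVec w v') (vecMulVec w w') := by
  ext x y
  rcases x with x | x | x <;> rcases y with y | y | y <;> rfl

theorem vmv_T {m n : Type} (a : m → ℂ) (b : n → ℂ) : (vecMulVec a b)ᵀ = vecMulVec b a := by
  ext i j; simp [vecMulVec_apply, mul_comm]

theorem vmv_one (a b : Fin 1 → ℂ) : vecMulVec a b = (a 0 * b 0) • (1 : Matrix (Fin 1) (Fin 1) ℂ) := by
  ext i j
  have hi : i = 0 := Subsingleton.elim _ _
  have hj : j = 0 := Subsingleton.elim _ _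
  subst hi; subst hj
  simp [vecMulVec_apply]

theorem vmv_mulVec {m n : Type} [Fintype n] (a : m → ℂ) (A : Matrix n n ℂ) (b : n → ℂ) :
    vecMulVec a (A *ᵥ b) = vecMulVec a b * Aᵀ := by
  ext i j
  simp only [vecMulVec_apply, Matrix.mulVec, dotProduct, Matrix.mul_apply, Finset.mul_sum,
    Matrix.transpose_apply]
  exact Finset.sum_congr rfl fun _ _ => by ring

theorem vmv_H {m n : Type} (a : m → ℂ) (b : n → ℂ) :
    (vecMulVec a b)ᴴ = vecMulVec (star b) (star a) := by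
  ext i j; simp [vecMulVec_apply, mul_comm]

/-- the vector `1` -/
def one1 : Fin 1 → ℂ := fun _ => 1

theorem vmv_vmv {m n : Type} (a : m → ℂ) (b : n → ℂ) :
    vecMulVec a one1 * vecMulVec one1 b = vecMulVec a b := by
  ext i j
  simp [Matrix.mul_apply, vecMulVec_apply, one1]

theorem wdg_tri (u : Fin 1 → ℂ) (v : Fin q → ℂ) (w : Fin 1 → ℂ) (u' : Fin 1 → ℂ)
    (v' : Fin q → ℂ) (w' : Fin 1 → ℂ) :
    wdg (B0 1 q) (tri u v w) (tri u' v' w') =
      big0 (vecMulVec u w' - vecMulVec u' w, vecMulVec v v' - vecMulVec v' v) +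
        big1 (vecMulVec u v' - vecMulVec u' v) +
        (big1 ((vecMulVec v w' - vecMulVec v' w)ᴴ))ᴴ := by
  unfold wdg
  rw [B0_eq, bl_tri, bl_tri]
  simp only [Matrix.zero_mulVec, Matrix.one_mulVec, zero_add, add_zero]
  rw [vmv_tri, vmv_tri, bl_sub, big0_eq, big1_eq, big1_eq, bl_ct, bl_add, bl_add, bl_inj]
  refine ⟨?_, ?_, ?_, ?_, ?_, ?_, ?_, ?_, ?_⟩
  · simp
  · simp
  · rw [vmv_one, vmv_one, mul_comm (u 0)]; simp
  · simp
  · simp
  · simp [Matrix.transpose_sub, vmv_T]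
  · rw [vmv_one, vmv_one, mul_comm (w 0)]; simp
  · rw [Matrix.conjTranspose_neg, conjTranspose_transpose_eq, Matrix.conjTranspose_conjTranspose]
    simp [Matrix.transpose_sub, vmv_T]
  · simp [Matrix.transpose_sub, vmv_T]

theorem alg0 {X : Matrix (Fin 1) (Fin 1) ℂ × Matrix (Fin q) (Fin q) ℂ} (h : X ∈ G.h0) :
    big0 X ∈ G.alg := Submodule.subset_span (Or.inl ⟨X, h, rfl⟩)

theorem alg1 {F : Matrix (Fin 1) (Fin q) ℂ} (h : F ∈ G.h1) :
    big1 F ∈ G.alg := Submodule.subset_span (Or.inr (Or.inl ⟨F, h, Or.inl rfl⟩))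

theorem alg1' {F : Matrix (Fin 1) (Fin q) ℂ} (h : F ∈ G.h1) :
    (big1 F)ᴴ ∈ G.alg := Submodule.subset_span (Or.inr (Or.inl ⟨F, h, Or.inr rfl⟩))

theorem GB.memT (h : GB G E d) (R : Matrix (Fin 1) (Fin q) ℂ) : d • (R * Eᵀ) ∈ G.h1 := by
  rw [← Matrix.mul_smul, h.dET, Matrix.mul_smul]
  exact G.h1.smul_mem _ (h.mem R)

theorem star_mulVec {n : Type} [Fintype n] (A : Matrix n n ℂ) (b : n → ℂ) :
    star (A *ᵥ b) = cj A *ᵥ star b := by
  funext i
  simp [Matrix.mulVec, dotProduct, cj]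

theorem cj_T {m n : Type} (A : Matrix m n ℂ) : (cj A)ᵀ = cj Aᵀ := rfl

theorem wedge_mem (h : GB G E d) (a b : I 1 q → ℂ) :
    wdg (B0 1 q) (Pb E d *ᵥ a) (Pa E d *ᵥ b) ∈ G.alg := by
  obtain ⟨u, v, w, rfl⟩ := tri_surj a
  obtain ⟨u', v', w', rfl⟩ := tri_surj b
  unfold Pb Pa
  rw [bl_tri, bl_tri]
  simp only [Matrix.zero_mulVec, Matrix.one_mulVec, zero_add, add_zero, Matrix.smul_mulVec]
  rw [wdg_tri]
  have hcj : cj (Eᵀ) = E := by rw [h.tr, cj_cj]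
  have hcj2 : cj E = Eᵀ := h.tr.symm
  -- rows in `h1`
  have r1 : ∀ x : Fin 1 → ℂ, vecMulVec x (Eᵀ *ᵥ v') ∈ G.h1 := by
    intro x
    rw [vmv_mulVec, Matrix.transpose_transpose]
    exact h.mem _
  have r2 : ∀ x : Fin 1 → ℂ, vecMulVec (d • x) (E *ᵥ v) ∈ G.h1 := by
    intro x
    rw [vmv_mulVec, Matrix.smul_vecMulVec, Matrix.smul_mul]
    exact h.memT _
  have r3 : ∀ x : Fin 1 → ℂ, (vecMulVec (E *ᵥ v) x)ᴴ ∈ G.h1 := by
    intro x
    rw [vmv_H, star_mulVec, vmv_mulVec, hcj2, Matrix.transpose_transpose]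
    exact h.mem _
  have r4 : ∀ x : Fin 1 → ℂ, (vecMulVec (Eᵀ *ᵥ v') (d • x))ᴴ ∈ G.h1 := by
    intro x
    rw [vmv_H, star_mulVec, vmv_mulVec, hcj, star_smul, h.dc, Matrix.smul_vecMulVec,
      Matrix.smul_mul]
    exact h.memT _
  refine Submodule.add_mem _ (Submodule.add_mem _ (alg0 ?_) (alg1 ?_)) (alg1' ?_)
  · have h1 := h0_second G (r1 one1) (r3 one1)
    rw [Matrix.conjTranspose_conjTranspose, vmv_vmv, vmv_T] at h1
    have h3 := G.h0.smul_mem (u 0 * w' 0 - (d • u') 0 * (d • w) 0) G.one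
    have h4 := G.h0.sub_mem h3 h1
    convert h4 using 1
    refine Prod.ext ?_ ?_
    · simp only [Prod.fst_sub, Prod.smul_fst, sub_zero]
      rw [vmv_one, vmv_one, sub_smul]
    · simp only [Prod.snd_sub, Prod.smul_snd, smul_zero, zero_sub, neg_sub]
  · exact G.h1.sub_mem (r1 u) (r2 u')
  · rw [Matrix.conjTranspose_sub]
    exact G.h1.sub_mem (r3 w') (r4 w)

theorem x0_eq : x0 1 q = bl 1 0 0 0 0 0 0 0 (-1) := by
  rw [x0, big0_eq]
  simp

theorem x0_P1 (h : d = 1) : x0 1 q * Pb E d = x0 1 q := by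
  unfold Pb
  rw [h, x0_eq, bl_mul, bl_inj]
  refine ⟨?_, ?_, ?_, ?_, ?_, ?_, ?_, ?_, ?_⟩ <;> simp

theorem x0_P0 (h : d = 0) : x0 1 q * Pb E d + x0 1 q * Pa E d = x0 1 q := by
  unfold Pb Pa
  rw [h, x0_eq, bl_mul, bl_mul, bl_add, bl_inj]
  refine ⟨?_, ?_, ?_, ?_, ?_, ?_, ?_, ?_, ?_⟩ <;> simp

theorem Pa_P1 (h : GB G E d) (h1 : d = 1) (h2 : cj E = E) : Pa E d = Pb E d := by
  unfold Pa Pb
  rw [bl_inj]
  refine ⟨?_, ?_, ?_, ?_, ?_, ?_, ?_, ?_, ?_⟩ <;> simp [h1, h.tr, h2]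

theorem PaPb0 (h : GB G E d) (h1 : d = 0) (h2 : E * Eᵀ = 0) :
    Pa E d * Pb E d = 0 ∧ Pb E d * Pa E d = 0 := by
  have h3 : Eᵀ * E = 0 := by
    have h4 := congrArg cj h2
    rw [cj_mul, h.tr, cj_cj, ← h.tr] at h4
    rw [h4]
    ext i j; simp [cj]
  unfold Pa Pb
  rw [bl_mul, bl_mul, ← bl_zero, bl_inj, bl_inj]
  refine ⟨⟨?_, ?_, ?_, ?_, ?_, ?_, ?_, ?_, ?_⟩, ?_, ?_, ?_, ?_, ?_, ?_, ?_, ?_, ?_⟩ <;>
    simp [h1, h2, h3]

/-- the sign matrix in coordinates -/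
def C0 (q : ℕ) : Matrix (I 1 q) (I 1 q) ℂ := (2 : ℂ) • (x0 1 q * x0 1 q) - 1

theorem C0_eq : C0 q = bl 1 0 0 0 (-1) 0 0 0 1 := by
  have h : (1 : Matrix (I 1 q) (I 1 q) ℂ) = bl 1 0 0 0 1 0 0 0 1 := by
    ext x y
    rcases x with x | x | x <;> rcases y with y | y | y <;>
      simp [Matrix.one_apply]
  unfold C0
  rw [x0_eq, bl_mul, bl_smul, h, bl_sub, bl_inj]
  refine ⟨?_, ?_, ?_, ?_, ?_, ?_, ?_, ?_, ?_⟩ <;> simp
  · ext i j
    have hi : i = 0 := Subsingleton.elim _ _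
    have hj : j = 0 := Subsingleton.elim _ _
    subst hi; subst hj
    simp; norm_num
  · ext i j
    have hi : i = 0 := Subsingleton.elim _ _
    have hj : j = 0 := Subsingleton.elim _ _
    subst hi; subst hj
    simp; norm_num

theorem conj_P (h1 : d = 1) (h2 : cj E = E) :
    B0 1 q * C0 q * cj (Pb E d) * C0 q * B0 1 q = Pb E d := by
  have h3 : cj (Pb E d) = Pb E d := by
    unfold Pb
    ext x y
    rcases x with x | x | x <;> rcases y with y | y | y <;> simp [cj, h1, Matrix.one_apply]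
    have h4 := congrFun (congrFun h2 x) y
    simpa [cj] using h4
  rw [h3, C0_eq, B0_eq]
  unfold Pb
  rw [bl_mul, bl_mul, bl_mul, bl_mul, bl_inj]
  refine ⟨?_, ?_, ?_, ?_, ?_, ?_, ?_, ?_, ?_⟩ <;> simp [h1]

theorem rank_of_fac {n : Type} [Fintype n] [DecidableEq n] {P : Matrix n n ℂ} {m : ℕ}
    {G : Matrix (Fin m) n ℂ} {H : Matrix n (Fin m) ℂ} (h1 : H * G = P) (h2 : G * H = 1) :
    P.rank = m ∧ P.trace = m := by
  constructor
  · apply le_antisymm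
    · rw [← h1]
      refine (Matrix.rank_mul_le_left _ _).trans ?_
      exact (Matrix.rank_le_card_width H).trans (by simp)
    · have h3 : G * P * H = 1 := by
        rw [← h1]
        calc G * (H * G) * H = (G * H) * (G * H) := by simp only [Matrix.mul_assoc]
          _ = 1 := by rw [h2, Matrix.mul_one]
      have h4 : (G * P * H).rank = m := by rw [h3, Matrix.rank_one, Fintype.card_fin]
      rw [← h4]
      exact (Matrix.rank_mul_le_left _ _).trans (Matrix.rank_mul_le_right _ _)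
  · rw [← h1, Matrix.trace_mul_comm, h2, Matrix.trace_one, Fintype.card_fin]

theorem rank_Pb (h : GB G E d) (h1 : d = 1) (h2 : E ≠ 0) : 3 ≤ (Pb E d).rank := by
  obtain ⟨m, A, B, h3, h4⟩ := rank_fac (Pb_sq h)
  obtain ⟨m', A', B', h3', h4'⟩ := rank_fac h.idem
  obtain ⟨h5, h6⟩ := rank_of_fac h3 h4
  obtain ⟨h5', h6'⟩ := rank_of_fac h3' h4'
  have h7 : (Pb E d).trace = 1 + (E.trace + 1) := by
    unfold Pb
    simp [Matrix.trace, Fintype.sum_sum_type, h1]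
  have h8 : 1 ≤ m' := by
    by_contra hlt
    have h9 : m' = 0 := by omega
    subst h9
    apply h2
    rw [← h3']
    ext i j
    simp [Matrix.mul_apply]
  rw [h6, h6'] at h7
  have h9 : m = 1 + (m' + 1) := by exact_mod_cast h7
  rw [h5]; omega

end

end Pool.Agent.Y166.KS
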