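import Pool.Agent.Y166.KS.Fft4

/-!
# First fundamental theorem for blocks, part 5: proof of `S_fft`
-/

set_option linter.unusedSectionVars false
set_option linter.deprecated false
set_option linter.unusedSimpArgs false

open Matrix Finset Function

namespace Pool.Agent.Y166.KS

open Pool.Agent.Y89.KS

noncomputable section

variable {ι : Type} [Fintype ι] [DecidableEq ι] {κ : Type} [Fintype κ]
  {Q R : Matrix ι ι ℂ} {g : Set (Matrix ι ι ℂ)} {pr : κ → Matrix ι ι ℂ} {N : κ → Prop}
  {M : ∀ S : Type, Submodule ℂ ((S → ι) → ℂ)}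
  {S : Type} [Fintype S] [DecidableEq S]

/-- rank factorisation of an idempotent matrix -/
theorem rank_fac {P : Matrix ι ι ℂ} (hP : P * P = P) :
    ∃ (m : ℕ) (G : Matrix (Fin m) ι ℂ) (H : Matrix ι (Fin m) ℂ), H * G = P ∧ G * H = 1 := by
  classical
  let f : (ι → ℂ) →ₗ[ℂ] (ι → ℂ) := Matrix.toLin' P
  let W := LinearMap.range f
  let e : W ≃ₗ[ℂ] (Fin (Module.finrank ℂ W) → ℂ) := (Module.finBasis ℂ W).equivFun
  let Gl : (ι → ℂ) →ₗ[ℂ] (Fin (Module.finrank ℂ W) → ℂ) := e.toLinearMap ∘ₗ f.rangeRestrict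
  let Hl : (Fin (Module.finrank ℂ W) → ℂ) →ₗ[ℂ] (ι → ℂ) := W.subtype ∘ₗ e.symm.toLinearMap
  have h1 : Hl ∘ₗ Gl = f := by
    apply LinearMap.ext
    intro x
    simp [Hl, Gl]
  have hff : ∀ x, f (f x) = f x := by
    intro x
    simp only [f, Matrix.toLin'_apply, Matrix.mulVec_mulVec, hP]
  have h2 : Gl ∘ₗ Hl = LinearMap.id := by
    apply LinearMap.ext
    intro x
    have h3 : f.rangeRestrict ((e.symm x : W) : ι → ℂ) = e.symm x := by
      apply Subtype.ext
      obtain ⟨y, hy⟩ := (e.symm x).2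
      show f ((e.symm x : W) : ι → ℂ) = ((e.symm x : W) : ι → ℂ)
      rw [← hy, hff]
    show e (f.rangeRestrict ((e.symm x : W) : ι → ℂ)) = x
    rw [h3, LinearEquiv.apply_symm_apply]
  refine ⟨_, LinearMap.toMatrix' Gl, LinearMap.toMatrix' Hl, ?_, ?_⟩
  · rw [← LinearMap.toMatrix'_comp, h1]
    exact LinearMap.toMatrix'_toLin' P
  · rw [← LinearMap.toMatrix'_comp, h2, LinearMap.toMatrix'_id]

theorem alt_insert {B : Finset S} {F : ML S ι} (hA : Alt B F) {l : S} (hl : l ∉ B) :
    Alt (insert l B) (F - ∑ j ∈ B, act (Equiv.swap j l) F) := by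
  -- one of the two is `l`
  have key : ∀ a ∈ B, act (Equiv.swap a l) (F - ∑ j ∈ B, act (Equiv.swap j l) F) =
      - (F - ∑ j ∈ B, act (Equiv.swap j l) F) := by
    intro a ha
    rw [act_sub, act_sum, ← Finset.add_sum_erase B _ ha, ← Finset.add_sum_erase B (fun j =>
      act (Equiv.swap j l) F) ha]
    have h1 : act (Equiv.swap a l) (act (Equiv.swap a l) F) = F := by
      rw [← act_mul, Equiv.swap_mul_self, act_one]
    have h2 : ∑ j ∈ B.erase a, act (Equiv.swap a l) (act (Equiv.swap j l) F) =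
        - ∑ j ∈ B.erase a, act (Equiv.swap j l) F := by
      rw [← Finset.sum_neg_distrib]
      refine Finset.sum_congr rfl fun j hj => ?_
      have hja : j ≠ a := (mem_erase.1 hj).1
      have hjB : j ∈ B := (mem_erase.1 hj).2
      have hla : a ≠ l := fun h => hl (h ▸ ha)
      rw [← act_mul, Equiv.swap_mul_eq_mul_swap, Equiv.swap_inv, Equiv.swap_apply_right,
        Equiv.swap_apply_of_ne_of_ne hja.symm hla, act_mul, hA a ha j hjB hja.symm, act_neg]
    rw [h1, h2]
    abel
  intro a ha b hb hab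
  rcases mem_insert.1 ha with ha' | ha'
  · rcases mem_insert.1 hb with hb' | hb'
    · exact absurd (ha'.trans hb'.symm) hab
    · rw [ha', Equiv.swap_comm]; exact key b hb'
  · rcases mem_insert.1 hb with hb' | hb'
    · rw [hb']; exact key a ha'
    · replace ha := ha'
      replace hb := hb'
      rw [act_sub, act_sum, hA a ha b hb hab]
      have hla : l ≠ a := fun h => hl (h ▸ ha)
      have hlb : l ≠ b := fun h => hl (h ▸ hb)
      have h1 : ∀ j, act (Equiv.swap a b) (act (Equiv.swap j l) F) =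
          - act (Equiv.swap (Equiv.swap a b j) l) F := by
        intro j
        rw [← act_mul, Equiv.mul_swap_eq_swap_mul, Equiv.swap_apply_of_ne_of_ne hla hlb, act_mul,
          hA a ha b hb hab, act_neg]
      have h2 : ∑ j ∈ B, act (Equiv.swap (Equiv.swap a b j) l) F =
          ∑ j ∈ B, act (Equiv.swap j l) F := by
        refine Finset.sum_equiv (Equiv.swap a b) (fun j => ?_) (fun _ _ => rfl)
        by_cases hja : j = a
        · subst hja; rw [Equiv.swap_apply_left]; exact ⟨fun _ => hb, fun _ => ha⟩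
        · by_cases hjb : j = b
          · subst hjb; rw [Equiv.swap_apply_right]; exact ⟨fun _ => ha, fun _ => hb⟩
          · rw [Equiv.swap_apply_of_ne_of_ne hja hjb]
      simp only [h1]
      rw [Finset.sum_neg_distrib, h2]
      abel

/-- forms without null variables -/
theorem live_mem (hM : GSys R M) (hB : Blocks Q R g κ pr N) (hIH : IH g M (Fintype.card S))
    (hq : ∀ i, ¬ N i → (fun J : Fin 2 → ι => ((pr i)ᵀ * Q) (J 0) (J 1)) ∈ M (Fin 2))
    (hd : ∀ i, ¬ N i → adj Q R (pr i) = pr i → ∀ (m : ℕ) (G : Matrix (Fin m) ι ℂ)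
      (H : Matrix ι (Fin m) ℂ), H * G = pr i → G * H = 1 →
      (fun J : Fin m → ι => (G.submatrix id J).det) ∈ M (Fin m))
    {F : ML S ι} (hI : Inv g F) {c : S → κ} (hP : Pat pr c F) (j₀ : S) (hj₀ : ¬ N (c j₀)) :
    co F ∈ M S := by
  classical
  by_contra hF
  set i := c j₀ with hi
  obtain ⟨m, G, H, hHG, hGH⟩ := rank_fac (idem hB i)
  have htr : (pr i).trace = m := by
    rw [← hHG, Matrix.trace_mul_comm, hGH, Matrix.trace_one, Fintype.card_fin]
  let 𝓑 : Finset (Finset S) := univ.filter (fun B => (∀ s ∈ B, c s = i) ∧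
    ∃ v : ML S ι, Inv g v ∧ Pat pr c v ∧ co v ∉ M S ∧ Alt B v)
  have h0 : {j₀} ∈ 𝓑 := by
    refine mem_filter.2 ⟨mem_univ _, ?_, F, hI, hP, hF, ?_⟩
    · intro s hs; rw [mem_singleton.1 hs]
    · intro a ha b hb hab
      exact absurd ((mem_singleton.1 ha).trans (mem_singleton.1 hb).symm) hab
  obtain ⟨B, hB𝓑, hmax⟩ := Finset.exists_max_image 𝓑 Finset.card ⟨_, h0⟩
  obtain ⟨-, hcB, v, hvI, hvP, hvM, hvA⟩ := mem_filter.1 hB𝓑
  have hp1 : 1 ≤ B.card := by simpa using hmax _ h0
  have hpm : B.card ≤ m := by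
    by_contra hlt
    apply hvM
    rw [big_zero hB hvP hvA hcB hHG (not_le.1 hlt)]
    exact (M S).zero_mem
  set A : Finset S := univ.filter (fun s => c s = i) with hAdef
  have hBA : B ⊆ A := fun s hs => mem_filter.2 ⟨mem_univ _, hcB s hs⟩
  -- the new variables
  have hnew : ∀ l ∈ A \ B, v - ∑ j ∈ B, act (Equiv.swap j l) v ∈ MM M S := by
    intro l hl
    obtain ⟨hlA, hlB⟩ := mem_sdiff.1 hl
    have hcl : c l = i := (mem_filter.1 hlA).2
    by_contra hcon
    have h1 : insert l B ∈ 𝓑 := by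
      refine mem_filter.2 ⟨mem_univ _, ?_, v - ∑ j ∈ B, act (Equiv.swap j l) v, ?_, ?_, hcon,
        alt_insert hvA hlB⟩
      · intro s hs
        rcases mem_insert.1 hs with rfl | hs
        · exact hcl
        · exact hcB s hs
      · exact inv_sub hvI (inv_sum fun j _ => act_inv hvI _)
      · refine pat_sub hvP (pat_sum fun j hj => pat_act hvP fun s => ?_)
        by_cases hs : s = j
        · rw [hs, Equiv.swap_apply_left, hcl, hcB j hj]
        · by_cases hs' : s = l
          · rw [hs', Equiv.swap_apply_right, hcl, hcB j hj]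
          · rw [Equiv.swap_apply_of_ne_of_ne hs hs']
    have h2 := hmax _ h1
    rw [Finset.card_insert_of_notMem hlB] at h2
    omega
  -- the Casimir identity
  obtain ⟨δ, hδ, hδ2⟩ : ∃ δ : ℕ, adj Q R (pr i) * pr i = (δ : ℂ) • pr i ∧
      (δ = 0 ∨ δ = 1 ∧ adj Q R (pr i) = pr i) := by
    rcases hB.type i hj₀ with h | h
    · exact ⟨1, by rw [h, idem hB]; simp, Or.inr ⟨rfl, h⟩⟩
    · exact ⟨0, by rw [h]; simp, Or.inl rfl⟩
  have hcas : ∀ j ∈ B, ((m : ℂ) - δ - (B.card - 1)) • v +
      ∑ l ∈ A \ B, act (Equiv.swap j l) v ∈ MM M S := by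
    intro j hj
    have h1 := cas_mod hM hB hIH hvI hvP (hcB j hj) hj₀ hδ (hq i hj₀)
    have h2 : univ.filter (fun l => c l = i ∧ l ≠ j) = B.erase j ∪ (A \ B) := by
      ext l
      simp only [hAdef, mem_filter, mem_univ, true_and, mem_union, mem_erase, mem_sdiff]
      constructor
      · rintro ⟨h3, h4⟩
        by_cases h5 : l ∈ B
        · exact Or.inl ⟨h4, h5⟩
        · exact Or.inr ⟨h3, h5⟩
      · rintro (⟨h3, h4⟩ | ⟨h3, h4⟩)
        · exact ⟨hcB l h4, h3⟩
        · exact ⟨h3, fun h5 => h4 (h5 ▸ hj)⟩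
    have h3 : Disjoint (B.erase j) (A \ B) := by
      rw [Finset.disjoint_left]
      intro l hl hl2
      exact (mem_sdiff.1 hl2).2 (mem_erase.1 hl).2
    have h4 : ∑ l ∈ B.erase j, act (Equiv.swap j l) v = - ((B.card : ℂ) - 1) • v := by
      have h5 : ∀ l ∈ B.erase j, act (Equiv.swap j l) v = - v := fun l hl =>
        hvA j hj l (mem_erase.1 hl).2 (mem_erase.1 hl).1.symm
      rw [Finset.sum_congr rfl h5, Finset.sum_const, Finset.card_erase_of_mem hj,
        ← Nat.cast_smul_eq_nsmul ℂ, Nat.cast_sub hp1, Nat.cast_one]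
      module
    rw [h2, Finset.sum_union h3, h4, htr] at h1
    have h6 : ((m : ℂ) - δ) • v + (- ((B.card : ℂ) - 1) • v +
        ∑ l ∈ A \ B, act (Equiv.swap j l) v) = ((m : ℂ) - δ - (B.card - 1)) • v +
      ∑ l ∈ A \ B, act (Equiv.swap j l) v := by
      rw [← add_assoc, ← add_smul]
      congr 2
    rwa [h6] at h1
  have hs1 := Submodule.sum_mem (MM M S) hcas
  have hs2 := Submodule.sum_mem (MM M S) hnew
  rw [Finset.sum_add_distrib, Finset.sum_const] at hs1
  rw [Finset.sum_sub_distrib, Finset.sum_const, Finset.sum_comm] at hs2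
  have hs3 := Submodule.add_mem _ hs1 hs2
  have hs4 : (((B.card : ℂ) * ((m : ℂ) - δ - (B.card - 1)) + ((A \ B).card : ℂ)) • v) ∈ MM M S := by
    convert hs3 using 1
    rw [add_smul, mul_smul, Nat.cast_smul_eq_nsmul ℂ, Nat.cast_smul_eq_nsmul ℂ]
    abel
  have hs5 : (B.card : ℂ) * ((m : ℂ) - δ - (B.card - 1)) + ((A \ B).card : ℂ) = 0 := by
    by_contra hne
    exact hvM (mem_MM.1 ((Submodule.smul_mem_iff _ hne).1 hs4))
  obtain ⟨a, ha⟩ := Nat.exists_eq_add_of_le hpm
  rcases hδ2 with h | ⟨h, hadj⟩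
  · rw [ha, h] at hs5
    have h7 : ((B.card * (a + 1) + (A \ B).card : ℕ) : ℂ) = 0 := by
      rw [← hs5]; push_cast; ring
    have h8 : B.card * (a + 1) + (A \ B).card = 0 := by exact_mod_cast h7
    have h9 : 0 < B.card * (a + 1) := Nat.mul_pos hp1 (Nat.succ_pos a)
    omega
  · rw [ha, h] at hs5
    have h7 : ((B.card * a + (A \ B).card : ℕ) : ℂ) = 0 := by
      rw [← hs5]; push_cast; ring
    have h8 : B.card * a + (A \ B).card = 0 := by exact_mod_cast h7
    have h9 : B.card * a = 0 := by omega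
    have h10 : a = 0 := by
      rcases Nat.mul_eq_zero.1 h9 with h9 | h9
      · omega
      · exact h9
    have h11 : m = B.card := by omega
    subst h11
    exact hvM (det_mem hM hB hIH hvI hvP hvA hcB (card_pos.1 (by omega)) hadj hHG hGH
      (hd i hj₀ hadj _ G H hHG hGH))

/-- The first fundamental theorem. -/
theorem fft : S_fft := by
  intro ι _ _ Q R g κ _ pr N hB M hM hlin hq hd
  classical
  have main : ∀ n : ℕ, ∀ (S : Type) [Fintype S] [DecidableEq S], Fintype.card S = n →
      ∀ F : ML S ι, Inv g F → co F ∈ M S := by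
    intro n
    induction n using Nat.strong_induction_on with
    | _ n ih =>
      intro S _ _ hn F hI
      have hIH : IH g M (Fintype.card S) := by
        intro S' _ _ hS' G' hG'
        exact ih _ (hn ▸ hS') S' rfl G' hG'
      rcases isEmpty_or_nonempty S with hS | hS
      · exact hM.unit S _
      obtain ⟨j₀⟩ := hS
      -- decomposition by patterns
      have h1 : F = ∑ c : S → κ, F.compLinearMap (fun s => (pr (c s)).mulVecLin) := by
        refine MultilinearMap.ext fun v => ?_
        have h2 : v = fun s => ∑ i, pr i *ᵥ v s := by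
          funext s
          rw [← Matrix.sum_mulVec, hB.sum, Matrix.one_mulVec]
        conv_lhs => rw [h2]
        rw [MultilinearMap.map_sum, MultilinearMap.sum_apply]
        rfl
      rw [h1, co_sum]
      refine Submodule.sum_mem _ fun c _ => ?_
      set Fc : ML S ι := F.compLinearMap (fun s => (pr (c s)).mulVecLin) with hFc
      have hFca : ∀ v : S → ι → ℂ, Fc v = F (fun s => pr (c s) *ᵥ v s) := fun v => rfl
      have hP : Pat pr c Fc := by
        intro v
        rw [hFca, hFca]
        congr 1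
        funext s
        rw [Matrix.mulVec_mulVec, idem hB]
      have hIc : Inv g Fc := by
        intro z hz v
        rw [← hI z hz (fun s => pr (c s) *ᵥ v s)]
        refine Finset.sum_congr rfl fun j _ => ?_
        rw [hFca]
        congr 1
        funext s
        by_cases hs : s = j
        · rw [hs, update_self, update_self, Matrix.mulVec_mulVec, Matrix.mulVec_mulVec,
            hB.comm _ z hz]
        · rw [update_of_ne hs, update_of_ne hs]
      by_cases hN : N (c j₀)
      · exact null_mem hM hB hlin hIH hIc hP hN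
      · exact live_mem hM hB hIH hq hd hIc hP j₀ hN
  intro S _ _ f hf
  obtain ⟨F, rfl⟩ := exists_ml f
  exact main _ S rfl F (inv_of_der hf)

end

end Pool.Agent.Y166.KS
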