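import Pool.Agent.Y89.KS.Defs

/-!
# First fundamental theorem for blocks, part 1: multilinear forms, restriction, products
-/

set_option linter.unusedSectionVars false
set_option linter.deprecated false
set_option linter.unusedSimpArgs false

open Matrix Finset Function

namespace Pool.Agent.Y166.KS

open Pool.Agent.Y89.KS

noncomputable section

variable {ι : Type} [Fintype ι] [DecidableEq ι]

/-- multilinear forms in variables indexed by `S` -/
abbrev ML (S ι : Type) := MultilinearMap ℂ (fun _ : S => (ι → ℂ)) ℂ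

section basic
variable {S : Type}

/-- coordinates of a multilinear form -/
def co (F : ML S ι) : (S → ι) → ℂ := fun J => F (fun s => Pi.single (J s) 1)

/-- coordinates as a linear map -/
def coL (S ι : Type) [Fintype ι] [DecidableEq ι] : ML S ι →ₗ[ℂ] ((S → ι) → ℂ) where
  toFun := co
  map_add' _ _ := rfl
  map_smul' _ _ := rfl

theorem coL_apply (F : ML S ι) : coL S ι F = co F := rfl

/-- the forms whose coordinates belong to `M` -/
def MM (M : ∀ S : Type, Submodule ℂ ((S → ι) → ℂ)) (S : Type) : Submodule ℂ (ML S ι) :=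
  (M S).comap (coL S ι)

theorem mem_MM {M : ∀ S : Type, Submodule ℂ ((S → ι) → ℂ)} {F : ML S ι} :
    F ∈ MM M S ↔ co F ∈ M S := Iff.rfl

variable [Fintype S]

theorem co_inj {F G : ML S ι} (h : co F = co G) : F = G := by
  refine Module.Basis.ext_multilinear (fun _ => Pi.basisFun ℂ ι) (fun J => ?_)
  simp only [Pi.basisFun_apply]
  exact congrFun h J

theorem exists_ml (f : (S → ι) → ℂ) : ∃ F : ML S ι, co F = f := by
  classical
  refine ⟨∑ K : S → ι, f K • (MultilinearMap.mkPiAlgebra ℂ S ℂ).compLinearMap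
    (fun s => LinearMap.proj (K s)), ?_⟩
  funext J
  simp only [co, MultilinearMap.sum_apply, MultilinearMap.smul_apply,
    MultilinearMap.compLinearMap_apply, MultilinearMap.mkPiAlgebra_apply, LinearMap.proj_apply,
    smul_eq_mul]
  rw [Finset.sum_eq_single J]
  · simp
  · intro K _ hK
    obtain ⟨s, hs⟩ := Function.ne_iff.1 hK
    rw [Finset.prod_eq_zero (mem_univ s), mul_zero]
    simp [Pi.single_apply, hs]
  · simp

variable [DecidableEq S]

/-- invariance under the operators of `g` -/
def Inv (g : Set (Matrix ι ι ℂ)) (F : ML S ι) : Prop :=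
  ∀ z ∈ g, ∀ v : S → ι → ℂ, ∑ j, F (update v j (z *ᵥ v j)) = 0

/-- one variable transformed by `z` -/
def tr1 (F : ML S ι) (j : S) (z : Matrix ι ι ℂ) : ML S ι :=
  F.compLinearMap (update (fun _ => LinearMap.id) j z.mulVecLin)

theorem tr1_apply (F : ML S ι) (j : S) (z : Matrix ι ι ℂ) (v : S → ι → ℂ) :
    tr1 F j z v = F (update v j (z *ᵥ v j)) := by
  unfold tr1
  rw [MultilinearMap.compLinearMap_apply]
  congr 1
  funext s
  by_cases h : s = j
  · subst h; simp
  · simp [h]

theorem col_sum (z : Matrix ι ι ℂ) (i : ι) :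
    z *ᵥ (Pi.single i 1 : ι → ℂ) = ∑ p, z p i • (Pi.single p 1 : ι → ℂ) := by
  funext k
  simp [Finset.sum_apply, Pi.single_apply, Matrix.mulVec_single_one]

theorem co_tr1 (F : ML S ι) (j : S) (z : Matrix ι ι ℂ) : co (tr1 F j z) = sl j z (co F) := by
  funext J
  simp only [co, sl]
  rw [tr1_apply, col_sum, MultilinearMap.map_update_sum]
  refine Finset.sum_congr rfl fun p _ => ?_
  rw [MultilinearMap.map_update_smul, smul_eq_mul]
  congr 2
  funext s
  by_cases h : s = j
  · subst h; simp
  · simp [h]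

theorem inv_of_der {g : Set (Matrix ι ι ℂ)} {F : ML S ι} (h : ∀ z ∈ g, der z (co F) = 0) :
    Inv g F := by
  intro z hz v
  have h1 : (∑ j, tr1 F j z) = 0 := by
    apply co_inj
    have h2 : co (∑ j, tr1 F j z) = ∑ j, co (tr1 F j z) := by
      rw [← coL_apply, map_sum]; rfl
    rw [h2]
    have h3 := h z hz
    funext J
    have h4 := congrFun h3 J
    simp only [der, Pi.zero_apply] at h4
    rw [Finset.sum_apply]
    simp only [co_tr1]
    rw [h4]
    rfl
  have h5 := congrArg (fun G : ML S ι => G v) h1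
  simp only [MultilinearMap.sum_apply, tr1_apply, MultilinearMap.zero_apply] at h5
  exact h5

theorem inv_der {g : Set (Matrix ι ι ℂ)} {F : ML S ι} (h : Inv g F) : ∀ z ∈ g, der z (co F) = 0 := by
  intro z hz
  funext J
  have h1 := h z hz (fun s => Pi.single (J s) 1)
  simp only [der, Pi.zero_apply]
  rw [← h1]
  refine Finset.sum_congr rfl fun j _ => ?_
  rw [← co_tr1, ← tr1_apply]
  rfl

end basic

section mix
variable {S : Type} (p : S → Prop) [DecidablePred p]

/-- the variables in `p` replaced by `y` -/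
def mix (w : {s // ¬ p s} → ι → ℂ) (y : S → ι → ℂ) : S → ι → ℂ :=
  fun s => if h : ¬ p s then w ⟨s, h⟩ else y s

/-- the variables in `p` replaced by `y` -/
def res (F : ML S ι) (y : S → ι → ℂ) : ML {s // ¬ p s} ι :=
  F.domDomRestrict (fun s => ¬ p s) (fun a => y a.1)

theorem res_apply (F : ML S ι) (y : S → ι → ℂ) (w : {s // ¬ p s} → ι → ℂ) :
    res p F y w = F (mix p w y) := by
  unfold res mix
  rw [MultilinearMap.domDomRestrict_apply]

theorem mix_neg (w : {s // ¬ p s} → ι → ℂ) (y : S → ι → ℂ) {s : S} (h : ¬ p s) :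
    mix p w y s = w ⟨s, h⟩ := by
  unfold mix; rw [dif_pos h]

theorem mix_pos (w : {s // ¬ p s} → ι → ℂ) (y : S → ι → ℂ) {s : S} (h : p s) :
    mix p w y s = y s := by
  unfold mix; rw [dif_neg (not_not.2 h)]

theorem mix_update [DecidableEq S] (w : {s // ¬ p s} → ι → ℂ) (y : S → ι → ℂ) (s : {s // ¬ p s})
    (x : ι → ℂ) : mix p (update w s x) y = update (mix p w y) s.1 x := by
  funext t
  by_cases h : t = s.1
  · subst h
    rw [mix_neg p _ _ s.2]; simp
  · rw [update_of_ne h]
    by_cases h1 : p t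
    · rw [mix_pos p _ _ h1, mix_pos p _ _ h1]
    · rw [mix_neg p _ _ h1, mix_neg p _ _ h1, update_of_ne]
      intro h2; exact h (congrArg Subtype.val h2)

theorem mix_inv [Fintype S] [DecidableEq S] {g : Set (Matrix ι ι ℂ)} {F : ML S ι} (hF : Inv g F)
    {z : Matrix ι ι ℂ} (hz : z ∈ g) (w : {s // ¬ p s} → ι → ℂ) (y : S → ι → ℂ) :
    ∑ s, res p F y (update w s (z *ᵥ w s)) =
      - ∑ s ∈ univ.filter p, F (update (mix p w y) s (z *ᵥ y s)) := by
  have h := hF z hz (mix p w y)
  rw [← Finset.sum_filter_add_sum_filter_not univ p] at h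
  have h1 : ∑ s ∈ univ.filter p, F (update (mix p w y) s (z *ᵥ mix p w y s)) =
      ∑ s ∈ univ.filter p, F (update (mix p w y) s (z *ᵥ y s)) := by
    refine Finset.sum_congr rfl fun s hs => ?_
    rw [mix_pos p _ _ (mem_filter.1 hs).2]
  have h2 : ∑ s ∈ univ.filter (fun s => ¬ p s), F (update (mix p w y) s (z *ᵥ mix p w y s)) =
      ∑ s, res p F y (update w s (z *ᵥ w s)) := by
    rw [Finset.sum_subtype (univ.filter (fun s => ¬ p s)) (p := fun s => ¬ p s) (by simp)]
    refine Finset.sum_congr rfl fun s _ => ?_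
    rw [res_apply, mix_update, mix_neg p _ _ s.2]
  rw [h1, h2] at h
  linear_combination h

end mix

end

end Pool.Agent.Y166.KS
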