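import Pool.Agent.Y166.KS.Fft1

/-!
# First fundamental theorem for blocks, part 2: patterns, permutations, the Casimir identity
-/

set_option linter.unusedSectionVars false
set_option linter.deprecated false
set_option linter.unusedSimpArgs false

open Matrix Finset Function

namespace Pool.Agent.Y166.KS

open Pool.Agent.Y89.KS

noncomputable section

variable {ι : Type} [Fintype ι] [DecidableEq ι]

/-- products of a form in the variables of `p` and a form in the other variables -/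
theorem prod_mem {R : Matrix ι ι ℂ} {M : ∀ S : Type, Submodule ℂ ((S → ι) → ℂ)} (hM : GSys R M)
    {S S₁ : Type} (p : S → Prop) [DecidablePred p] (e : S₁ ≃ {s // p s})
    {f : (S₁ → ι) → ℂ} {h : ({s // ¬ p s} → ι) → ℂ} (hf : f ∈ M S₁) (hh : h ∈ M {s // ¬ p s}) :
    (fun J : S → ι => f (fun a => J (e a).1) * h (fun s => J s.1)) ∈ M S := by
  have h1 := hM.mul _ _ f h hf hh
  have h2 := hM.reidx _ _ ((Equiv.sumCongr e (Equiv.refl _)).trans (Equiv.sumCompl p)) _ h1
  exact h2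

section perm
variable {S : Type} [Fintype S] [DecidableEq S]

/-- the action of permutations of the variables -/
def act (σ : Equiv.Perm S) (F : ML S ι) : ML S ι := F.domDomCongr σ

theorem act_apply (σ : Equiv.Perm S) (F : ML S ι) (v : S → ι → ℂ) :
    act σ F v = F (fun s => v (σ s)) := by
  unfold act; rw [MultilinearMap.domDomCongr_apply]

theorem act_mul (σ τ : Equiv.Perm S) (F : ML S ι) : act (σ * τ) F = act σ (act τ F) := by
  refine MultilinearMap.ext fun v => ?_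
  rw [act_apply, act_apply, act_apply]; rfl

theorem act_one (F : ML S ι) : act 1 F = F := by
  refine MultilinearMap.ext fun v => ?_
  rw [act_apply]; rfl

theorem act_neg (σ : Equiv.Perm S) (F : ML S ι) : act σ (-F) = - act σ F := by
  refine MultilinearMap.ext fun v => ?_
  rw [act_apply]; rfl

theorem act_sub (σ : Equiv.Perm S) (F G : ML S ι) : act σ (F - G) = act σ F - act σ G := by
  refine MultilinearMap.ext fun v => ?_
  rw [act_apply]; rfl

theorem act_sum {α : Type} (σ : Equiv.Perm S) (t : Finset α) (F : α → ML S ι) :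
    act σ (∑ a ∈ t, F a) = ∑ a ∈ t, act σ (F a) := by
  refine MultilinearMap.ext fun v => ?_
  rw [act_apply, MultilinearMap.sum_apply, MultilinearMap.sum_apply]
  refine Finset.sum_congr rfl fun a _ => ?_
  rw [act_apply]

theorem act_inv {g : Set (Matrix ι ι ℂ)} {F : ML S ι} (hF : Inv g F) (σ : Equiv.Perm S) :
    Inv g (act σ F) := by
  intro z hz v
  rw [← hF z hz (fun s => v (σ s)), ← Equiv.sum_comp σ (fun j => act σ F (update v j (z *ᵥ v j)))]
  refine Finset.sum_congr rfl fun j _ => ?_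
  rw [act_apply]
  congr 1
  funext s
  by_cases h : s = j
  · subst h; simp
  · rw [update_of_ne h, update_of_ne]
    exact fun h1 => h (σ.injective h1)

end perm

section pat
variable {S : Type} [Fintype S] [DecidableEq S] {κ : Type} [Fintype κ]

theorem inv_add {g : Set (Matrix ι ι ℂ)} {F G : ML S ι} (hF : Inv g F) (hG : Inv g G) :
    Inv g (F + G) := by
  intro z hz v
  simp only [MultilinearMap.add_apply, Finset.sum_add_distrib]
  rw [hF z hz v, hG z hz v, add_zero]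

theorem inv_smul {g : Set (Matrix ι ι ℂ)} {F : ML S ι} (hF : Inv g F) (c : ℂ) :
    Inv g (c • F) := by
  intro z hz v
  simp only [MultilinearMap.smul_apply, ← Finset.smul_sum]
  rw [hF z hz v, smul_zero]

theorem inv_zero {g : Set (Matrix ι ι ℂ)} : Inv g (0 : ML S ι) := by
  intro z hz v
  simp

theorem inv_sum {α : Type} {g : Set (Matrix ι ι ℂ)} {t : Finset α} {F : α → ML S ι}
    (hF : ∀ a ∈ t, Inv g (F a)) : Inv g (∑ a ∈ t, F a) := by
  classical
  induction t using Finset.induction_on with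
  | empty => simpa using inv_zero
  | insert a t ha ih =>
    rw [Finset.sum_insert ha]
    exact inv_add (hF a (mem_insert_self a t)) (ih fun b hb => hF b (mem_insert_of_mem hb))

theorem inv_sub {g : Set (Matrix ι ι ℂ)} {F G : ML S ι} (hF : Inv g F) (hG : Inv g G) :
    Inv g (F - G) := by
  have : F - G = F + (-1 : ℂ) • G := by ext v; simp [sub_eq_add_neg]
  rw [this]
  exact inv_add hF (inv_smul hG _)

/-- the form lives on the blocks given by `c` -/
def Pat (pr : κ → Matrix ι ι ℂ) (c : S → κ) (F : ML S ι) : Prop :=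
  ∀ v : S → ι → ℂ, F (fun s => pr (c s) *ᵥ v s) = F v

theorem pat_sub {pr : κ → Matrix ι ι ℂ} {c : S → κ} {F G : ML S ι} (hF : Pat pr c F)
    (hG : Pat pr c G) : Pat pr c (F - G) := by
  intro v; simp only [MultilinearMap.sub_apply]; rw [hF v, hG v]

theorem pat_sum {α : Type} {pr : κ → Matrix ι ι ℂ} {c : S → κ} {t : Finset α} {F : α → ML S ι}
    (hF : ∀ a ∈ t, Pat pr c (F a)) : Pat pr c (∑ a ∈ t, F a) := by
  intro v; simp only [MultilinearMap.sum_apply]
  exact Finset.sum_congr rfl fun a ha => hF a ha v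

theorem pat_act {pr : κ → Matrix ι ι ℂ} {c : S → κ} {F : ML S ι} (hF : Pat pr c F)
    {σ : Equiv.Perm S} (hσ : ∀ s, c (σ s) = c s) : Pat pr c (act σ F) := by
  intro v
  rw [act_apply, act_apply, ← hF (fun s => v (σ s))]
  congr 1
  funext s
  rw [hσ]

theorem pat_congr {pr : κ → Matrix ι ι ℂ} {c : S → κ} {F : ML S ι} (hF : Pat pr c F)
    {v w : S → ι → ℂ} (h : ∀ s, pr (c s) *ᵥ v s = pr (c s) *ᵥ w s) : F v = F w := by
  rw [← hF v, ← hF w]
  congr 1
  funext s
  exact h s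

variable {Q R : Matrix ι ι ℂ} {g : Set (Matrix ι ι ℂ)} {pr : κ → Matrix ι ι ℂ} {N : κ → Prop}

theorem idem (hB : Blocks Q R g κ pr N) (i : κ) : pr i * pr i = pr i := by
  classical
  have h : pr i * ∑ j, pr j = pr i := by rw [hB.sum, mul_one]
  rw [Finset.mul_sum, Finset.sum_eq_single i] at h
  · exact h
  · intro j _ hj; exact hB.orth i j hj.symm
  · intro h1; exact absurd (mem_univ i) h1

theorem RQ (hB : Blocks Q R g κ pr N) : R * Q = 1 := mul_eq_one_comm.1 hB.QR

theorem Rsymm (hB : Blocks Q R g κ pr N) : Rᵀ = R := by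
  have h : Rᵀ * Q = 1 := by
    rw [← hB.symm, ← Matrix.transpose_mul, hB.QR, Matrix.transpose_one]
  calc Rᵀ = Rᵀ * (Q * R) := by rw [hB.QR, mul_one]
    _ = R := by rw [← mul_assoc, h, one_mul]

theorem pat_update_zero (hB : Blocks Q R g κ pr N) {c : S → κ} {F : ML S ι} (hF : Pat pr c F)
    (v : S → ι → ℂ) (j : S) {i : κ} (h : c j ≠ i) (x : ι → ℂ) :
    F (update v j (pr i *ᵥ x)) = 0 := by
  have h1 : F (update v j (pr i *ᵥ x)) = F (update v j 0) := by
    refine pat_congr hF fun s => ?_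
    by_cases hs : s = j
    · subst hs
      rw [update_self, update_self, Matrix.mulVec_mulVec, hB.orth _ _ h]; simp
    · rw [update_of_ne hs, update_of_ne hs]
  rw [h1]
  exact F.map_update_zero v j

theorem lin_exp (F : ML S ι) (v : S → ι → ℂ) (j : S) (x : ι → ℂ) :
    F (update v j x) = ∑ t, x t * F (update v j (Pi.single t 1)) := by
  have h : x = ∑ t, x t • (Pi.single t 1 : ι → ℂ) := by
    funext k
    simp [Finset.sum_apply, Pi.single_apply]
  conv_lhs => rw [h]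
  rw [MultilinearMap.map_update_sum]
  refine Finset.sum_congr rfl fun t _ => ?_
  rw [MultilinearMap.map_update_smul, smul_eq_mul]

theorem wdg_mulVec (a b x : ι → ℂ) :
    wdg Q a b *ᵥ x = ((Q *ᵥ b) ⬝ᵥ x) • a - ((Q *ᵥ a) ⬝ᵥ x) • b := by
  have h : ∀ a c x : ι → ℂ, Matrix.vecMulVec a c *ᵥ x = (c ⬝ᵥ x) • a := by
    intro a c x
    funext k
    simp only [Matrix.mulVec, dotProduct, Matrix.vecMulVec_apply, Pi.smul_apply, smul_eq_mul,
      Finset.sum_mul]
    exact Finset.sum_congr rfl fun _ _ => by ring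
  unfold wdg
  rw [Matrix.sub_mulVec, h, h]

theorem symm_dot (hQ : Qᵀ = Q) (a x : ι → ℂ) : (Q *ᵥ a) ⬝ᵥ x = a ⬝ᵥ Q *ᵥ x := by
  rw [Matrix.dotProduct_mulVec, ← Matrix.mulVec_transpose, hQ]

theorem wz (hB : Blocks Q R g κ pr N) (i : κ) (u : ι → ℂ) (t : ι) (x : ι → ℂ) :
    wdg Q (pr i *ᵥ u) (adj Q R (pr i) *ᵥ (R *ᵥ Pi.single t 1)) *ᵥ x =
      (pr i *ᵥ x) t • (pr i *ᵥ u) -
        (pr i *ᵥ u ⬝ᵥ Q *ᵥ x) • ((adj Q R (pr i) * R) *ᵥ Pi.single t 1) := by
  have h1 : Q * (adj Q R (pr i) * R) = (pr i)ᵀ := by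
    unfold adj
    calc Q * (R * (pr i)ᵀ * Q * R) = (Q * R) * (pr i)ᵀ * (Q * R) := by
          simp only [Matrix.mul_assoc]
      _ = (pr i)ᵀ := by rw [hB.QR, one_mul, mul_one]
  have h2 : adj Q R (pr i) *ᵥ (R *ᵥ (Pi.single t 1 : ι → ℂ)) =
      (adj Q R (pr i) * R) *ᵥ Pi.single t 1 := Matrix.mulVec_mulVec _ _ _
  have h3 : Q *ᵥ ((adj Q R (pr i) * R) *ᵥ (Pi.single t 1 : ι → ℂ)) = (pr i)ᵀ *ᵥ Pi.single t 1 := by
    rw [Matrix.mulVec_mulVec, h1]
  have h4 : ((pr i)ᵀ *ᵥ (Pi.single t 1 : ι → ℂ)) ⬝ᵥ x = (pr i *ᵥ x) t := by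
    rw [Matrix.mulVec_transpose, ← Matrix.dotProduct_mulVec]
    simp
  rw [wdg_mulVec, h2, h3, h4, symm_dot hB.symm]

theorem sum_col (A : Matrix ι ι ℂ) (y : ι → ℂ) :
    ∑ t, y t • A *ᵥ (Pi.single t 1 : ι → ℂ) = A *ᵥ y := by
  funext k
  simp only [Finset.sum_apply, Pi.smul_apply, smul_eq_mul, Matrix.mulVec, dotProduct]
  refine Finset.sum_congr rfl fun t _ => ?_
  simp [Pi.single_apply, mul_comm]

theorem sum_col' {m : ℕ} (A : Matrix ι (Fin m) ℂ) (y : Fin m → ℂ) :
    ∑ t, y t • A *ᵥ (Pi.single t 1 : Fin m → ℂ) = A *ᵥ y := by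
  funext k
  simp only [Finset.sum_apply, Pi.smul_apply, smul_eq_mul, Matrix.mulVec, dotProduct]
  refine Finset.sum_congr rfl fun t _ => ?_
  simp [Pi.single_apply, mul_comm]

theorem wz_sum (hB : Blocks Q R g κ pr N) (i : κ) (u : ι → ℂ) :
    ∑ t, wdg Q (pr i *ᵥ u) (adj Q R (pr i) *ᵥ (R *ᵥ Pi.single t 1)) *ᵥ
        (Pi.single t 1 : ι → ℂ) = (pr i).trace • (pr i *ᵥ u) - (adj Q R (pr i) * pr i) *ᵥ u := by
  have h3 : ∀ t, (pr i *ᵥ u ⬝ᵥ Q *ᵥ Pi.single t 1) = (Q *ᵥ (pr i *ᵥ u)) t := by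
    intro t
    rw [← symm_dot hB.symm]; simp
  have h5 : adj Q R (pr i) * R * Q * pr i = adj Q R (pr i) * pr i := by
    calc adj Q R (pr i) * R * Q * pr i = adj Q R (pr i) * (R * Q) * pr i := by
          simp only [Matrix.mul_assoc]
      _ = adj Q R (pr i) * pr i := by rw [RQ hB, mul_one]
  calc _ = ∑ t, ((pr i *ᵥ (Pi.single t 1 : ι → ℂ)) t • (pr i *ᵥ u) -
        (Q *ᵥ (pr i *ᵥ u)) t • ((adj Q R (pr i) * R) *ᵥ (Pi.single t 1 : ι → ℂ))) := by
          refine Finset.sum_congr rfl fun t _ => ?_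
          rw [wz hB, h3]
    _ = (∑ t, (pr i *ᵥ (Pi.single t 1 : ι → ℂ)) t) • (pr i *ᵥ u) -
        (adj Q R (pr i) * R) *ᵥ (Q *ᵥ (pr i *ᵥ u)) := by
          rw [Finset.sum_sub_distrib, ← Finset.sum_smul, sum_col]
    _ = _ := by
          rw [Matrix.mulVec_mulVec, Matrix.mulVec_mulVec, h5]
          congr 2
          refine Finset.sum_congr rfl fun t _ => ?_
          simp [Matrix.diag]

/-- Casimir operator: abstract form -/
theorem cas_abs {F : ML S ι} (j : S) (v : S → ι → ℂ) (Z : ι → Matrix ι ι ℂ)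
    (hZ : ∀ t, Z t ∈ g) (hI : Inv g F) (P X : Matrix ι ι ℂ) (a b : ι → ℂ) (q : (ι → ℂ) → ℂ)
    (hz : ∀ t x, Z t *ᵥ x = (P *ᵥ x) t • a - q x • (X *ᵥ Pi.single t 1))
    (hs : ∑ t, Z t *ᵥ (Pi.single t 1 : ι → ℂ) = b) :
    F (update v j b) +
      ∑ l ∈ univ.erase j, (F (update (update v j (P *ᵥ v l)) l a) -
        q (v l) * ∑ t, F (update (update v j (Pi.single t 1)) l (X *ᵥ Pi.single t 1))) = 0 := by
  have hsum : ∑ t, ∑ l, F (update (update v j (Pi.single t 1)) l
      (Z t *ᵥ (update v j (Pi.single t 1) l))) = 0 :=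
    Finset.sum_eq_zero fun t _ => hI (Z t) (hZ t) _
  rw [Finset.sum_comm, ← Finset.add_sum_erase _ _ (mem_univ j)] at hsum
  rw [← hsum]
  congr 1
  · simp only [update_self, update_idem]
    rw [← MultilinearMap.map_update_sum, hs]
  · refine Finset.sum_congr rfl fun l hl => ?_
    have hlj : l ≠ j := (mem_erase.1 hl).1
    rw [Finset.mul_sum]
    have h5 : F (update (update v j (P *ᵥ v l)) l a) =
        ∑ t, (P *ᵥ v l) t * F (update (update v j (Pi.single t 1)) l a) := by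
      rw [update_comm hlj.symm, lin_exp]
      refine Finset.sum_congr rfl fun t _ => ?_
      rw [update_comm hlj]
    rw [h5, ← Finset.sum_sub_distrib]
    refine Finset.sum_congr rfl fun t _ => ?_
    rw [update_of_ne hlj, hz, MultilinearMap.map_update_sub, MultilinearMap.map_update_smul,
      MultilinearMap.map_update_smul, smul_eq_mul, smul_eq_mul]

/-- Casimir operator: raw form -/
theorem cas_raw (hB : Blocks Q R g κ pr N) {F : ML S ι} (hI : Inv g F) (j : S) {i : κ}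
    (hN : ¬ N i) (v : S → ι → ℂ) :
    (pr i).trace * F (update v j (pr i *ᵥ v j)) - F (update v j ((adj Q R (pr i) * pr i) *ᵥ v j)) +
      ∑ l ∈ univ.erase j, (F (update (update v j (pr i *ᵥ v l)) l (pr i *ᵥ v j)) -
        (pr i *ᵥ v j ⬝ᵥ Q *ᵥ v l) *
          ∑ t, F (update (update v j (Pi.single t 1)) l ((adj Q R (pr i) * R) *ᵥ Pi.single t 1))) = 0 := by
  have h := cas_abs (g := g) (F := F) j v
    (fun t => wdg Q (pr i *ᵥ v j) (adj Q R (pr i) *ᵥ (R *ᵥ Pi.single t 1)))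
    (fun t => hB.wedge i hN _ _) hI (pr i) (adj Q R (pr i) * R) (pr i *ᵥ v j)
    ((pr i).trace • (pr i *ᵥ v j) - (adj Q R (pr i) * pr i) *ᵥ v j)
    (fun x => pr i *ᵥ v j ⬝ᵥ Q *ᵥ x) (fun t x => wz hB i (v j) t x) (wz_sum hB i (v j))
  rw [MultilinearMap.map_update_sub, MultilinearMap.map_update_smul, smul_eq_mul] at h
  exact h

end pat

end

end Pool.Agent.Y166.KS
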