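import Pool.Agent.Y166.KS.Fft2

/-!
# First fundamental theorem for blocks, part 3: the Casimir identity modulo `M`, null blocks
-/

set_option linter.unusedSectionVars false
set_option linter.deprecated false
set_option linter.unusedSimpArgs false

open Matrix Finset Function

namespace Pool.Agent.Y166.KS

open Pool.Agent.Y89.KS

noncomputable section

variable {ι : Type} [Fintype ι] [DecidableEq ι] {κ : Type} [Fintype κ]
  {Q R : Matrix ι ι ℂ} {g : Set (Matrix ι ι ℂ)} {pr : κ → Matrix ι ι ℂ} {N : κ → Prop}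
  {M : ∀ S : Type, Submodule ℂ ((S → ι) → ℂ)}
  {S : Type} [Fintype S] [DecidableEq S]

/-- the induction hypothesis -/
def IH (g : Set (Matrix ι ι ℂ)) (M : ∀ S : Type, Submodule ℂ ((S → ι) → ℂ)) (n : ℕ) : Prop :=
  ∀ (S' : Type) [Fintype S'] [DecidableEq S'], Fintype.card S' < n →
    ∀ G : ML S' ι, Inv g G → co G ∈ M S'

theorem card_compl_lt (p : S → Prop) [DecidablePred p] {j : S} (hj : p j) :
    Fintype.card {s // ¬ p s} < Fintype.card S :=
  Fintype.card_subtype_lt (x := j) (not_not.2 hj)

theorem co_res (p : S → Prop) [DecidablePred p] (F : ML S ι) (y : S → ι → ℂ) (J : {s // ¬ p s} → ι) :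
    co (res p F y) J = F (mix p (fun s => Pi.single (J s) 1) y) := by
  unfold co; rw [res_apply]

theorem co_sum {α : Type} (t : Finset α) (F : α → ML S ι) :
    co (∑ a ∈ t, F a) = ∑ a ∈ t, co (F a) := by
  rw [← coL_apply, map_sum]; rfl

theorem adj_comm (hB : Blocks Q R g κ pr N) (i : κ) {z : Matrix ι ι ℂ} (hz : z ∈ g) :
    z * (adj Q R (pr i) * R) + (adj Q R (pr i) * R) * zᵀ = 0 := by
  have h1 : zᵀ * Q = - (Q * z) := eq_neg_of_add_eq_zero_left (hB.skew z hz)
  have h0 : adj Q R (pr i) * R = R * (pr i)ᵀ := by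
    unfold adj
    calc R * (pr i)ᵀ * Q * R = R * (pr i)ᵀ * (Q * R) := by simp only [Matrix.mul_assoc]
      _ = R * (pr i)ᵀ := by rw [hB.QR, mul_one]
  have h2 : R * zᵀ = - (z * R) := by
    calc R * zᵀ = R * (zᵀ * Q) * R := by
          rw [Matrix.mul_assoc, Matrix.mul_assoc, hB.QR, mul_one]
      _ = - (R * Q * (z * R)) := by rw [h1]; simp only [Matrix.mul_neg, Matrix.neg_mul, Matrix.mul_assoc]
      _ = _ := by rw [RQ hB, one_mul]
  have h3 : (pr i)ᵀ * zᵀ = zᵀ * (pr i)ᵀ := by
    rw [← Matrix.transpose_mul, ← Matrix.transpose_mul, hB.comm i z hz]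
  rw [h0, Matrix.mul_assoc R, h3, ← Matrix.mul_assoc R, h2]
  simp [Matrix.mul_assoc]

/-- the contraction of two variables is invariant -/
theorem contr_inv (hB : Blocks Q R g κ pr N) {F : ML S ι} (hI : Inv g F) {j l : S} (hjl : l ≠ j)
    (i : κ) :
    Inv g (∑ t, res (fun s => s = j ∨ s = l) F
      (fun s => if s = j then Pi.single t 1 else (adj Q R (pr i) * R) *ᵥ Pi.single t 1)) := by
  intro z hz w
  simp only [MultilinearMap.sum_apply]
  rw [Finset.sum_comm]
  set X := adj Q R (pr i) * R with hX
  have h1 : ∀ t : ι, ∑ s, res (fun s => s = j ∨ s = l) F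
      (fun s => if s = j then Pi.single t 1 else X *ᵥ Pi.single t 1) (update w s (z *ᵥ w s)) =
      - (F (update (update (mix (fun s => s = j ∨ s = l) w 0) j (z *ᵥ Pi.single t 1)) l
          (X *ᵥ Pi.single t 1)) +
        F (update (update (mix (fun s => s = j ∨ s = l) w 0) j (Pi.single t 1)) l
          (z *ᵥ X *ᵥ Pi.single t 1))) := by
    intro t
    rw [mix_inv _ hI hz]
    have h2 : univ.filter (fun s : S => s = j ∨ s = l) = {j, l} := by ext s; simp
    rw [h2, Finset.sum_pair hjl.symm]
    congr 3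
    · funext s
      by_cases hs : s = j
      · rw [hs, update_self, update_of_ne hjl.symm, update_self, if_pos rfl]
      · rw [update_of_ne hs]
        by_cases hs2 : s = l
        · rw [hs2, update_self, mix_pos (fun s => s = j ∨ s = l) _ _ (Or.inr rfl : l = j ∨ l = l), if_neg hjl]
        · rw [update_of_ne hs2, update_of_ne hs]
          have : ¬ (s = j ∨ s = l) := by tauto
          rw [mix_neg (fun s => s = j ∨ s = l) _ _ this, mix_neg (fun s => s = j ∨ s = l) _ _ this]
    · funext s
      by_cases hs2 : s = l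
      · rw [hs2, update_self, update_self, if_neg hjl]
      · rw [update_of_ne hs2, update_of_ne hs2]
        by_cases hs : s = j
        · rw [hs, update_self, mix_pos (fun s => s = j ∨ s = l) _ _ (Or.inl rfl : j = j ∨ j = l), if_pos rfl]
        · rw [update_of_ne hs]
          have : ¬ (s = j ∨ s = l) := by tauto
          rw [mix_neg (fun s => s = j ∨ s = l) _ _ this, mix_neg (fun s => s = j ∨ s = l) _ _ this]
  simp only [h1]
  rw [Finset.sum_neg_distrib, neg_eq_zero]
  set u := mix (fun s => s = j ∨ s = l) w 0 with hu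
  -- move `z` to the other variable
  have h3 : ∑ t, F (update (update u j (z *ᵥ Pi.single t 1)) l (X *ᵥ Pi.single t 1)) =
      ∑ t, F (update (update u j (Pi.single t 1)) l ((X * zᵀ) *ᵥ Pi.single t 1)) := by
    have h4 : ∀ t, F (update (update u j (z *ᵥ Pi.single t 1)) l (X *ᵥ Pi.single t 1)) =
        ∑ r, z r t * F (update (update u j (Pi.single r 1)) l (X *ᵥ Pi.single t 1)) := by
      intro t
      rw [update_comm hjl.symm, lin_exp]
      refine Finset.sum_congr rfl fun r _ => ?_
      rw [update_comm hjl]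
      simp
    have h5 : ∀ r, F (update (update u j (Pi.single r 1)) l ((X * zᵀ) *ᵥ Pi.single r 1)) =
        ∑ t, z r t * F (update (update u j (Pi.single r 1)) l (X *ᵥ Pi.single t 1)) := by
      intro r
      rw [← Matrix.mulVec_mulVec]
      have h6 : X *ᵥ (zᵀ *ᵥ (Pi.single r 1 : ι → ℂ)) = ∑ t, z r t • (X *ᵥ (Pi.single t 1 : ι → ℂ)) := by
        rw [sum_col]
        congr 1
        funext k; simp
      rw [h6, MultilinearMap.map_update_sum]
      refine Finset.sum_congr rfl fun t _ => ?_
      rw [MultilinearMap.map_update_smul, smul_eq_mul]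
    simp only [h4, h5]
    rw [Finset.sum_comm]
  rw [Finset.sum_add_distrib, h3, ← Finset.sum_add_distrib]
  refine Finset.sum_eq_zero fun t _ => ?_
  rw [← MultilinearMap.map_update_add, Matrix.mulVec_mulVec, ← Matrix.add_mulVec, add_comm,
    hX, adj_comm hB i hz, Matrix.zero_mulVec, MultilinearMap.map_update_zero]

/-- a product of the form of a block and a contraction belongs to `M` -/
theorem pair_mem (hM : GSys R M) (hB : Blocks Q R g κ pr N) (hIH : IH g M (Fintype.card S))
    {F : ML S ι} (hI : Inv g F) {j l : S} (hjl : l ≠ j) (i : κ)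
    (hq : (fun J : Fin 2 → ι => ((pr i)ᵀ * Q) (J 0) (J 1)) ∈ M (Fin 2)) :
    (fun J : S → ι => (pr i *ᵥ Pi.single (J j) 1 ⬝ᵥ Q *ᵥ Pi.single (J l) 1) *
      ∑ t, F (update (update (fun s => Pi.single (J s) 1) j (Pi.single t 1)) l
        ((adj Q R (pr i) * R) *ᵥ Pi.single t 1))) ∈ M S := by
  have h1 := hIH _ (card_compl_lt (fun s => s = j ∨ s = l) (Or.inl rfl : j = j ∨ j = l))
    _ (contr_inv hB hI hjl i)
  let e : Fin 2 ≃ {s // s = j ∨ s = l} := Equiv.ofBijective
    (fun a => if a = 0 then ⟨j, Or.inl rfl⟩ else ⟨l, Or.inr rfl⟩) (by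
      constructor
      · intro a b hab
        have hab := congrArg Subtype.val hab
        fin_cases a <;> fin_cases b <;> simp_all
      · rintro ⟨s, hs | hs⟩
        · exact ⟨0, by simp [hs]⟩
        · exact ⟨1, by simp [hs]⟩)
  have h2 := prod_mem hM (fun s => s = j ∨ s = l) e hq h1
  convert h2 using 1
  funext J
  show _ = ((pr i)ᵀ * Q) (J j) (J l) * co (∑ t, res (fun s => s = j ∨ s = l) F
      (fun s => if s = j then Pi.single t 1 else (adj Q R (pr i) * R) *ᵥ Pi.single t 1))
      (fun s => J s.1)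
  rw [co_sum, Finset.sum_apply]
  congr 1
  · simp only [Matrix.mul_apply, Matrix.transpose_apply, dotProduct, Matrix.mulVec_single_one,
      Matrix.col_apply]
  · refine Finset.sum_congr rfl fun t _ => ?_
    rw [co_res]
    congr 1
    funext s
    by_cases hs2 : s = l
    · rw [hs2, update_self, mix_pos (fun s => s = j ∨ s = l) _ _ (Or.inr rfl : l = j ∨ l = l), if_neg hjl]
    · rw [update_of_ne hs2]
      by_cases hs : s = j
      · rw [hs, update_self, mix_pos (fun s => s = j ∨ s = l) _ _ (Or.inl rfl : j = j ∨ j = l), if_pos rfl]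
      · rw [update_of_ne hs]
        have : ¬ (s = j ∨ s = l) := by tauto
        rw [mix_neg (fun s => s = j ∨ s = l) _ _ this]

/-- the Casimir identity modulo `M` -/
theorem cas_mod [DecidableEq κ] (hM : GSys R M) (hB : Blocks Q R g κ pr N)
    (hIH : IH g M (Fintype.card S)) {F : ML S ι} (hI : Inv g F) {c : S → κ} (hP : Pat pr c F)
    {j : S} {i : κ} (hj : c j = i) (hN : ¬ N i) {δ : ℂ} (hδ : adj Q R (pr i) * pr i = δ • pr i)
    (hq : (fun J : Fin 2 → ι => ((pr i)ᵀ * Q) (J 0) (J 1)) ∈ M (Fin 2)) :
    ((pr i).trace - δ) • F + ∑ l ∈ univ.filter (fun l => c l = i ∧ l ≠ j), act (Equiv.swap j l) F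
      ∈ MM M S := by
  rw [mem_MM]
  have h1 : co (((pr i).trace - δ) • F +
      ∑ l ∈ univ.filter (fun l => c l = i ∧ l ≠ j), act (Equiv.swap j l) F) =
      ∑ l ∈ univ.erase j, (fun J : S → ι => (pr i *ᵥ Pi.single (J j) 1 ⬝ᵥ Q *ᵥ Pi.single (J l) 1) *
      ∑ t, F (update (update (fun s => Pi.single (J s) 1) j (Pi.single t 1)) l
        ((adj Q R (pr i) * R) *ᵥ Pi.single t 1))) := by
    funext J
    rw [Finset.sum_apply]
    set v : S → ι → ℂ := fun s => Pi.single (J s) 1 with hv
    have h2 := cas_raw hB hI j hN v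
    rw [Finset.sum_sub_distrib] at h2
    have h3 : F (update v j (pr i *ᵥ v j)) = F v := by
      refine pat_congr hP fun s => ?_
      by_cases hs : s = j
      · subst hs; rw [update_self, hj, Matrix.mulVec_mulVec, idem hB]
      · rw [update_of_ne hs]
    have h4 : F (update v j ((adj Q R (pr i) * pr i) *ᵥ v j)) = δ * F v := by
      rw [hδ, Matrix.smul_mulVec, MultilinearMap.map_update_smul, h3, smul_eq_mul]
    have h5 : ∑ l ∈ univ.erase j, F (update (update v j (pr i *ᵥ v l)) l (pr i *ᵥ v j)) =
        ∑ l ∈ univ.filter (fun l => c l = i ∧ l ≠ j), act (Equiv.swap j l) F v := by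
      have h6 : univ.filter (fun l => c l = i ∧ l ≠ j) = (univ.erase j).filter (fun l => c l = i) := by
        ext l; simp [and_comm]
      rw [h6, Finset.sum_filter]
      refine Finset.sum_congr rfl fun l hl => ?_
      have hlj : l ≠ j := (mem_erase.1 hl).1
      split_ifs with hc
      · rw [act_apply]
        refine pat_congr hP fun s => ?_
        by_cases hs2 : s = l
        · subst hs2; rw [update_self, Equiv.swap_apply_right, hc, Matrix.mulVec_mulVec, idem hB]
        · rw [update_of_ne hs2]
          by_cases hs : s = j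
          · subst hs; rw [update_self, Equiv.swap_apply_left, hj, Matrix.mulVec_mulVec, idem hB]
          · rw [update_of_ne hs, Equiv.swap_apply_of_ne_of_ne hs hs2]
      · exact pat_update_zero hB hP _ _ hc _
    rw [h3, h4, h5] at h2
    have h7 : co (((pr i).trace - δ) • F +
      ∑ l ∈ univ.filter (fun l => c l = i ∧ l ≠ j), act (Equiv.swap j l) F) J =
      ((pr i).trace - δ) * F v +
        ∑ l ∈ univ.filter (fun l => c l = i ∧ l ≠ j), act (Equiv.swap j l) F v := by
      unfold co
      simp only [MultilinearMap.add_apply, MultilinearMap.smul_apply, MultilinearMap.sum_apply,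
        smul_eq_mul]
      rfl
    rw [h7]
    linear_combination h2
  rw [h1]
  refine Submodule.sum_mem _ fun l hl => ?_
  exact pair_mem hM hB hIH hI (mem_erase.1 hl).1 i hq

/-- a variable in a null block splits off -/
theorem null_mem (hM : GSys R M) (hB : Blocks Q R g κ pr N)
    (hlin : ∀ f : (Fin 1 → ι) → ℂ, (∀ z ∈ g, der z f = 0) → f ∈ M (Fin 1))
    (hIH : IH g M (Fintype.card S)) {F : ML S ι} (hI : Inv g F) {c : S → κ} (hP : Pat pr c F)
    {j : S} (hj : N (c j)) : co F ∈ M S := by
  have h0 : ∀ t : ι, (fun J : Fin 1 → ι => pr (c j) t (J 0)) ∈ M (Fin 1) := by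
    intro t
    apply hlin
    intro z hz
    funext J
    simp only [der, sl, Fin.sum_univ_one, update_self, Pi.zero_apply]
    have h1 : (pr (c j) * z) t (J 0) = 0 := by
      rw [← hB.comm _ z hz, hB.nul _ hj z hz]; rfl
    rw [Matrix.mul_apply] at h1
    rw [← h1]
    exact Finset.sum_congr rfl fun p _ => mul_comm _ _
  have h2 : ∀ t : ι, co (res (fun s => s = j) F (fun _ => Pi.single t 1)) ∈ M {s // ¬ s = j} := by
    intro t
    refine hIH _ (card_compl_lt (fun s => s = j) (rfl : j = j)) _ ?_
    intro z hz w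
    rw [mix_inv _ hI hz]
    have h3 : univ.filter (fun s : S => s = j) = {j} := by ext s; simp
    rw [h3, Finset.sum_singleton, neg_eq_zero]
    have h4 : F (update (mix (fun s => s = j) w fun _ => Pi.single t 1) j (z *ᵥ Pi.single t 1)) =
        F (update (mix (fun s => s = j) w fun _ => Pi.single t 1) j 0) := by
      refine pat_congr hP fun s => ?_
      by_cases hs : s = j
      · subst hs
        rw [update_self, update_self, Matrix.mulVec_mulVec, ← hB.comm _ z hz, hB.nul _ hj z hz,
          Matrix.zero_mulVec, Matrix.mulVec_zero]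
      · rw [update_of_ne hs, update_of_ne hs]
    rw [h4]
    exact F.map_update_zero _ _
  let e : Fin 1 ≃ {s // s = j} :=
    { toFun := fun _ => ⟨j, rfl⟩
      invFun := fun _ => 0
      left_inv := fun a => by omega
      right_inv := fun a => Subtype.ext a.2.symm }
  have h3 : co F = ∑ t, (fun J : S → ι => pr (c j) t (J j) *
      co (res (fun s => s = j) F (fun _ => Pi.single t 1)) (fun s => J s.1)) := by
    funext J
    rw [Finset.sum_apply]
    set v : S → ι → ℂ := fun s => Pi.single (J s) 1 with hv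
    have h4 : co F J = F (update v j (pr (c j) *ᵥ v j)) := by
      show F v = _
      refine pat_congr hP fun s => ?_
      by_cases hs : s = j
      · subst hs; rw [update_self, Matrix.mulVec_mulVec, idem hB]
      · rw [update_of_ne hs]
    rw [h4, lin_exp]
    refine Finset.sum_congr rfl fun t _ => ?_
    rw [co_res]
    congr 1
    · simp [hv]
    · congr 1
      funext s
      by_cases hs : s = j
      · rw [hs, update_self, mix_pos (fun s => s = j) _ _ (rfl : j = j)]
      · rw [update_of_ne hs, mix_neg (fun s => s = j) _ _ hs]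
  rw [h3]
  exact Submodule.sum_mem _ fun t _ => prod_mem hM (fun s => s = j) e (h0 t) (h2 t)

end

end Pool.Agent.Y166.KS
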