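import Pool.Agent.Y166.KS.Fft3

/-!
# First fundamental theorem for blocks, part 4: alternating variables
-/

set_option linter.unusedSectionVars false
set_option linter.deprecated false
set_option linter.unusedSimpArgs false

open Matrix Finset Function

namespace Pool.Agent.Y166.KS

open Pool.Agent.Y89.KS

noncomputable section

variable {ι : Type} [Fintype ι] [DecidableEq ι] {κ : Type} [Fintype κ]
  {Q R : Matrix ι ι ℂ} {g : Set (Matrix ι ι ℂ)} {pr : κ → Matrix ι ι ℂ} {N : κ → Prop}
  {M : ∀ S : Type, Submodule ℂ ((S → ι) → ℂ)}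
  {S : Type} [Fintype S] [DecidableEq S]

/-- the form is alternating in the variables of `B` -/
def Alt (B : Finset S) (F : ML S ι) : Prop :=
  ∀ a ∈ B, ∀ b ∈ B, a ≠ b → act (Equiv.swap a b) F = - F

theorem alt_zero {B : Finset S} {F : ML S ι} (hA : Alt B F) {a b : S} (ha : a ∈ B) (hb : b ∈ B)
    (hab : a ≠ b) {v : S → ι → ℂ} (hv : v a = v b) : F v = 0 := by
  have h1 := congrArg (fun G : ML S ι => G v) (hA a ha b hb hab)
  simp only [act_apply, MultilinearMap.neg_apply] at h1
  have h2 : (fun s => v (Equiv.swap a b s)) = v := by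
    funext s
    by_cases h : s = a
    · rw [h, Equiv.swap_apply_left, hv]
    · by_cases h' : s = b
      · rw [h', Equiv.swap_apply_right, hv]
      · rw [Equiv.swap_apply_of_ne_of_ne h h']
  rw [h2] at h1
  exact self_eq_neg.1 h1

/-- the alternating form on the block -/
def altOf (B : Finset S) (F : ML S ι) (hA : Alt B F) (x : S → ι → ℂ) {m : ℕ}
    (H : Matrix ι (Fin m) ℂ) : (Fin m → ℂ) [⋀^{s // s ∈ B}]→ₗ[ℂ] ℂ :=
  { (F.domDomRestrict (fun s => s ∈ B) (fun a => x a.1)).compLinearMap (fun _ => H.mulVecLin) with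
    map_eq_zero_of_eq' := by
      intro w a b hw hab
      simp only [MultilinearMap.toFun_eq_coe, MultilinearMap.compLinearMap_apply,
        MultilinearMap.domDomRestrict_apply, Matrix.mulVecLin_apply]
      refine alt_zero hA a.2 b.2 (fun h => hab (Subtype.ext h)) ?_
      simp only [a.2, b.2, dif_pos]
      rw [hw] }

theorem altOf_apply (B : Finset S) (F : ML S ι) (hA : Alt B F) (x : S → ι → ℂ) {m : ℕ}
    (H : Matrix ι (Fin m) ℂ) (w : {s // s ∈ B} → Fin m → ℂ) :
    altOf B F hA x H w = F (fun s => if h : s ∈ B then H *ᵥ w ⟨s, h⟩ else x s) := by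
  show ((F.domDomRestrict (fun s => s ∈ B) (fun a => x a.1)).compLinearMap
    (fun _ => H.mulVecLin)) w = _
  rw [MultilinearMap.compLinearMap_apply, MultilinearMap.domDomRestrict_apply]
  rfl

theorem eval_altOf (hB : Blocks Q R g κ pr N) {c : S → κ} {F : ML S ι} (hP : Pat pr c F)
    {B : Finset S} (hA : Alt B F) {i : κ} (hc : ∀ s ∈ B, c s = i) {m : ℕ}
    {G : Matrix (Fin m) ι ℂ} {H : Matrix ι (Fin m) ℂ} (hHG : H * G = pr i) (x : S → ι → ℂ) :
    F x = altOf B F hA x H (fun s => G *ᵥ x s.1) := by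
  rw [altOf_apply]
  refine pat_congr hP fun s => ?_
  by_cases hs : s ∈ B
  · rw [dif_pos hs, hc s hs]
    show pr i *ᵥ x s = pr i *ᵥ (H *ᵥ (G *ᵥ x s))
    rw [Matrix.mulVec_mulVec (x s) H G, hHG, Matrix.mulVec_mulVec, idem hB]
  · rw [dif_neg hs]

theorem big_zero (hB : Blocks Q R g κ pr N) {c : S → κ} {F : ML S ι} (hP : Pat pr c F)
    {B : Finset S} (hA : Alt B F) {i : κ} (hc : ∀ s ∈ B, c s = i) {m : ℕ}
    {G : Matrix (Fin m) ι ℂ} {H : Matrix ι (Fin m) ℂ} (hHG : H * G = pr i) (hm : m < B.card) :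
    F = 0 := by
  refine MultilinearMap.ext fun x => ?_
  rw [eval_altOf hB hP hA hc hHG x, MultilinearMap.zero_apply]
  apply AlternatingMap.map_linearDependent
  intro hli
  have h1 := hli.fintype_card_le_finrank
  rw [Module.finrank_fin_fun, Fintype.card_coe] at h1
  omega

/-- the basis of the block in the variables of `B` -/
def colB (B : Finset S) {m : ℕ} (H : Matrix ι (Fin m) ℂ) (e : Fin m ≃ {s // s ∈ B}) :
    S → ι → ℂ := fun s => if h : s ∈ B then H *ᵥ Pi.single (e.symm ⟨s, h⟩) 1 else 0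

theorem colB_e (B : Finset S) {m : ℕ} (H : Matrix ι (Fin m) ℂ) (e : Fin m ≃ {s // s ∈ B})
    (a : Fin m) : colB B H e (e a).1 = H *ᵥ Pi.single a 1 := by
  unfold colB
  rw [dif_pos (e a).2]
  simp

theorem det_split (hB : Blocks Q R g κ pr N) {c : S → κ} {F : ML S ι} (hP : Pat pr c F)
    {B : Finset S} (hA : Alt B F) {i : κ} (hc : ∀ s ∈ B, c s = i) {m : ℕ}
    {G : Matrix (Fin m) ι ℂ} {H : Matrix ι (Fin m) ℂ} (hHG : H * G = pr i)
    (e : Fin m ≃ {s // s ∈ B}) (J : S → ι) :
    co F J = (G.submatrix id (fun a => J (e a).1)).det *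
      co (res (fun s => s ∈ B) F (colB B H e)) (fun s => J s.1) := by
  set x : S → ι → ℂ := fun s => Pi.single (J s) 1 with hx
  have h1 : co F J = F x := rfl
  have h2 := AlternatingMap.eq_smul_basis_det (Pi.basisFun ℂ (Fin m))
    ((altOf B F hA x H).domDomCongr e.symm)
  have h3 := congrArg (fun f => f (fun a => G *ᵥ x (e a).1)) h2
  simp only [AlternatingMap.domDomCongr_apply, AlternatingMap.smul_apply, smul_eq_mul,
    Pi.basisFun_det_apply] at h3
  have h4 : ((fun a => G *ᵥ x (e a).1) ∘ e.symm) = (fun s : {s // s ∈ B} => G *ᵥ x s.1) := by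
    funext s; simp
  rw [h1, eval_altOf hB hP hA hc hHG x, ← h4, h3, mul_comm]
  congr 1
  · rw [← Matrix.det_transpose]
    congr 1
    ext a b
    simp [hx, Matrix.mulVec_single_one]
  · rw [altOf_apply, co_res]
    congr 1
    funext s
    by_cases hs : s ∈ B
    · rw [dif_pos hs, mix_pos (fun s => s ∈ B) _ _ hs]
      unfold colB
      rw [dif_pos hs]
      simp [Pi.basisFun_apply]
    · rw [dif_neg hs, mix_neg (fun s => s ∈ B) _ _ hs]

theorem trace_zero (hB : Blocks Q R g κ pr N) {i : κ} (hi : adj Q R (pr i) = pr i)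
    {z : Matrix ι ι ℂ} (hz : z ∈ g) : (z * pr i).trace = 0 := by
  have h1 : zᵀ * Q = - (Q * z) := eq_neg_of_add_eq_zero_left (hB.skew z hz)
  have h2 : (pr i)ᵀ * Q = Q * pr i := by
    have h3 : Q * adj Q R (pr i) = (pr i)ᵀ * Q := by
      unfold adj
      rw [← Matrix.mul_assoc, ← Matrix.mul_assoc, hB.QR, one_mul]
    rw [← h3, hi]
  have h4 : (z * pr i).trace = - (z * pr i).trace := by
    calc (z * pr i).trace = ((z * pr i)ᵀ).trace := (Matrix.trace_transpose _).symm
      _ = ((pr i)ᵀ * (zᵀ * Q) * R).trace := by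
          rw [Matrix.transpose_mul, Matrix.mul_assoc, Matrix.mul_assoc, hB.QR, mul_one]
      _ = - ((pr i)ᵀ * Q * (z * R)).trace := by
          rw [h1]; simp only [Matrix.mul_neg, Matrix.neg_mul, Matrix.mul_assoc, Matrix.trace_neg]
      _ = - (Q * (pr i * (z * R))).trace := by rw [h2, Matrix.mul_assoc]
      _ = - (pr i * (z * (R * Q))).trace := by
          rw [Matrix.trace_mul_comm]; simp only [Matrix.mul_assoc]
      _ = - (z * pr i).trace := by rw [RQ hB, mul_one, Matrix.trace_mul_comm]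
  exact self_eq_neg.1 h4

theorem det_inv (hB : Blocks Q R g κ pr N) {F : ML S ι} (hI : Inv g F)
    {B : Finset S} (hA : Alt B F) {i : κ} (hi : adj Q R (pr i) = pr i) {m : ℕ}
    {G : Matrix (Fin m) ι ℂ} {H : Matrix ι (Fin m) ℂ} (hHG : H * G = pr i) (hGH : G * H = 1)
    (e : Fin m ≃ {s // s ∈ B}) : Inv g (res (fun s => s ∈ B) F (colB B H e)) := by
  intro z hz w
  rw [mix_inv _ hI hz, neg_eq_zero]
  set u := mix (fun s => s ∈ B) w (colB B H e) with hu
  have h0 : univ.filter (fun s => s ∈ B) = B := by ext s; simp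
  rw [h0, ← Finset.sum_coe_sort, ← Equiv.sum_comp e]
  have hue : ∀ b : Fin m, u (e b).1 = colB B H e (e b).1 := fun b =>
    mix_pos (fun s => s ∈ B) _ _ (e b).2
  have h1 : ∀ a : Fin m, F (update u (e a).1 (z *ᵥ colB B H e (e a).1)) =
      (G * z * H) a a * F u := by
    intro a
    have h2 : z *ᵥ colB B H e (e a).1 = ∑ b, (G * z * H) b a • colB B H e (e b).1 := by
      have h3 : ∑ b, (G * z * H) b a • colB B H e (e b).1 = (H * (G * z * H)) *ᵥ Pi.single a 1 := by
        rw [← Matrix.mulVec_mulVec, ← sum_col' H]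
        refine Finset.sum_congr rfl fun b _ => ?_
        rw [colB_e]
        congr 1
        simp [Matrix.mulVec_single_one]
      have h4 : H * (G * z * H) = z * H := by
        calc H * (G * z * H) = (H * G) * z * H := by simp only [Matrix.mul_assoc]
          _ = z * (H * G) * H := by rw [hHG, hB.comm i z hz]
          _ = z * H * (G * H) := by simp only [Matrix.mul_assoc]
          _ = z * H := by rw [hGH, Matrix.mul_one]
      rw [h3, h4, colB_e, Matrix.mulVec_mulVec]
    rw [h2, MultilinearMap.map_update_sum, Finset.sum_eq_single a]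
    · rw [MultilinearMap.map_update_smul, smul_eq_mul, ← hue, update_eq_self]
    · intro b _ hb
      rw [MultilinearMap.map_update_smul]
      have hne : (e a).1 ≠ (e b).1 := fun h => hb (e.injective (Subtype.ext h)).symm
      rw [alt_zero hA (e a).2 (e b).2 hne, smul_zero]
      rw [update_self, update_of_ne hne.symm, hue]
    · intro h; exact absurd (mem_univ a) h
  simp only [h1]
  rw [← Finset.sum_mul]
  have h5 : ∑ a, (G * z * H) a a = 0 := by
    have h6 : (G * z * H).trace = (z * pr i).trace := by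
      rw [Matrix.mul_assoc, Matrix.trace_mul_comm, Matrix.mul_assoc, hHG]
    rw [trace_zero hB hi hz] at h6
    exact h6
  rw [h5, zero_mul]

/-- an alternating form in `rank` many variables of a self-dual block belongs to `M` -/
theorem det_mem (hM : GSys R M) (hB : Blocks Q R g κ pr N) (hIH : IH g M (Fintype.card S))
    {F : ML S ι} (hI : Inv g F) {c : S → κ} (hP : Pat pr c F)
    {B : Finset S} (hA : Alt B F) {i : κ} (hc : ∀ s ∈ B, c s = i) (hBn : B.Nonempty)
    (hi : adj Q R (pr i) = pr i)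
    {G : Matrix (Fin B.card) ι ℂ} {H : Matrix ι (Fin B.card) ℂ} (hHG : H * G = pr i)
    (hGH : G * H = 1)
    (hd : (fun J : Fin B.card → ι => (G.submatrix id J).det) ∈ M (Fin B.card)) : co F ∈ M S := by
  let e : Fin B.card ≃ {s // s ∈ B} := B.equivFin.symm
  obtain ⟨s₀, hs₀⟩ := hBn
  have h1 := hIH _ (card_compl_lt (fun s => s ∈ B) hs₀) _ (det_inv hB hI hA hi hHG hGH e)
  have h2 := prod_mem hM (fun s => s ∈ B) e hd h1
  have h3 : co F = _ := funext fun J => det_split hB hP hA hc hHG e J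
  rw [h3]
  exact h2

end

end Pool.Agent.Y166.KS
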